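import Mathlib

/-!
Outer functions on the circle: for an integrable function `u ≥ 0` there is a function `φ` on the
circle with `|φ| ≤ exp (-u)` almost everywhere which is a bounded limit of functions holomorphic
near the closed disc, with mean at least `exp (-∫ u - ε)`.
-/

set_option autoImplicit false

open MeasureTheory Metric Set Filter Topology Complex

namespace Pool.Agent.Q77.Cp

local instance fact2pi : Fact (0 < 2 * Real.pi) := ⟨by positivity⟩

/-- the circle -/
abbrev AC := AddCircle (2 * Real.pi)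

/-- normalised Haar measure -/
noncomputable abbrev hm : Measure AC := AddCircle.haarAddCircle

/-- the point of the unit circle -/
noncomputable def ep (x : AC) : ℂ := (AddCircle.toCircle x : ℂ)

lemma ep_cont : Continuous ep := continuous_subtype_val.comp AddCircle.continuous_toCircle

lemma ep_norm (x : AC) : ‖ep x‖ = 1 := by
  unfold ep
  exact Circle.norm_coe _

lemma ep_coe (θ : ℝ) : ep (θ : AC) = circleMap 0 1 θ := by
  unfold ep
  rw [AddCircle.toCircle_apply_mk, Circle.coe_exp, circleMap]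
  have h : (2 * Real.pi : ℝ) ≠ 0 := by positivity
  simp only [zero_add, ofReal_one, one_mul]
  congr 1
  rw [div_self h]
  simp

lemma int_eq {E : Type*} [NormedAddCommGroup E] [NormedSpace ℝ E] (g : AC → E) :
    ∫ x, g x ∂hm = (2 * Real.pi)⁻¹ • ∫ θ in (0 : ℝ)..(2 * Real.pi), g θ := by
  have h := AddCircle.intervalIntegral_preimage (2 * Real.pi) 0 g
  rw [zero_add] at h
  rw [h, AddCircle.volume_eq_smul_haarAddCircle, integral_smul_measure, ENNReal.toReal_ofReal
    (by positivity), smul_smul, inv_mul_cancel₀ (by positivity), one_smul]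

/-- mean value property -/
lemma mean {f : ℂ → ℂ} {R : ℝ} (hR : 1 < R) (hf : DifferentiableOn ℂ f (ball 0 R)) :
    ∫ x, f (ep x) ∂hm = f 0 := by
  rw [int_eq]
  have h : DiffContOnCl ℂ f (ball 0 |1|) := by
    refine DifferentiableOn.diffContOnCl ?_
    rw [abs_one, closure_ball _ one_ne_zero]
    exact hf.mono (closedBall_subset_ball hR)
  have h2 := h.circleAverage
  rw [← h2, Real.circleAverage]
  congr 1
  refine intervalIntegral.integral_congr (fun θ _ => ?_)
  simp only [ep_coe]

lemma cont_ep {f : ℂ → ℂ} {R : ℝ} (hR : 1 < R) (hf : DifferentiableOn ℂ f (ball 0 R)) :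
    Continuous (fun x => f (ep x)) := by
  rw [continuous_iff_continuousAt]
  intro x
  have hx : ep x ∈ ball (0 : ℂ) R := by
    rw [mem_ball_zero_iff, ep_norm]
    exact hR
  exact ContinuousAt.comp (f := ep) (g := f)
    ((hf.differentiableAt (isOpen_ball.mem_nhds hx)).continuousAt) ep_cont.continuousAt

lemma cont_int {E : Type*} [NormedAddCommGroup E] {f : AC → E} (hf : Continuous f) :
    Integrable f hm := by
  have : CompactSpace AC := inferInstance
  exact hf.integrable_of_hasCompactSupport (HasCompactSupport.of_compactSpace f)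

/-- real parts of entire functions are dense in the real continuous functions -/
lemma dense_re (w : C(AC, ℝ)) {η : ℝ} (hη : 0 < η) :
    ∃ p : ℂ → ℂ, Differentiable ℂ p ∧ (p 0).im = 0 ∧
      ∀ x, w x ≤ (p (ep x)).re ∧ (p (ep x)).re ≤ w x + 2 * η := by
  classical
  let W : C(AC, ℂ) := ⟨fun x => (w x : ℂ), continuous_ofReal.comp w.continuous⟩
  have hd : W ∈ (Submodule.span ℂ (range <| @fourier (2 * Real.pi))).topologicalClosure := by
    rw [span_fourier_closure_eq_top]
    trivial
  rw [← SetLike.mem_coe, Submodule.topologicalClosure_coe, Metric.mem_closure_iff] at hd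
  obtain ⟨b, hb, hWb⟩ := hd η hη
  have key : ∀ b ∈ Submodule.span ℂ (range <| @fourier (2 * Real.pi)), ∀ a : ℂ,
      ∃ p : ℂ → ℂ, Differentiable ℂ p ∧ ∀ x, (p (ep x)).re = (a * b x).re := by
    intro b hb
    induction hb using Submodule.span_induction with
    | mem b hb =>
      intro a
      obtain ⟨n, rfl⟩ := hb
      rcases le_or_gt 0 n with h | h
      · obtain ⟨m, rfl⟩ := Int.eq_ofNat_of_zero_le h
        refine ⟨fun z => a * z ^ m, (differentiable_id.pow _).const_mul _, fun x => ?_⟩
        rw [fourier_apply, AddCircle.toCircle_zsmul, zpow_natCast, Circle.coe_pow]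
        rfl
      · obtain ⟨m, hm⟩ := Int.eq_ofNat_of_zero_le (neg_nonneg.2 h.le)
        have hn : n = -(m : ℤ) := by omega
        subst hn
        refine ⟨fun z => (starRingEnd ℂ a) * z ^ m, (differentiable_id.pow _).const_mul _,
          fun x => ?_⟩
        rw [fourier_apply, AddCircle.toCircle_zsmul, zpow_neg, zpow_natCast, Circle.coe_inv_eq_conj,
          Circle.coe_pow]
        have h1 : (a * (starRingEnd ℂ) ((AddCircle.toCircle x : ℂ) ^ m)) =
            (starRingEnd ℂ) ((starRingEnd ℂ a) * (AddCircle.toCircle x : ℂ) ^ m) := by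
          rw [map_mul, Complex.conj_conj]
        rw [h1, Complex.conj_re]
        rfl
    | zero => exact fun a => ⟨fun _ => 0, differentiable_const _, fun x => by simp⟩
    | add b c _ _ hb hc =>
      intro a
      obtain ⟨p, hp, hp2⟩ := hb a
      obtain ⟨q, hq, hq2⟩ := hc a
      refine ⟨fun z => p z + q z, hp.add hq, fun x => ?_⟩
      simp only [add_re, hp2 x, hq2 x, ContinuousMap.add_apply, mul_add]
    | smul c b _ hb =>
      intro a
      obtain ⟨p, hp, hp2⟩ := hb (a * c)
      refine ⟨p, hp, fun x => ?_⟩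
      rw [hp2 x, ContinuousMap.smul_apply, smul_eq_mul, mul_assoc]
  obtain ⟨p, hp, hp2⟩ := key b hb 1
  refine ⟨fun z => p z + (η : ℂ) - ((p 0).im : ℂ) * I, (hp.add_const _).sub_const _, ?_, fun x => ?_⟩
  · simp
  · have h1 : ‖W x - b x‖ < η := by
      rw [← dist_eq_norm]
      exact (ContinuousMap.dist_apply_le_dist x).trans_lt hWb
    have h2 : |(W x - b x).re| < η := (abs_re_le_norm _).trans_lt h1
    have h3 : (W x).re = w x := rfl
    have h4 := hp2 x
    rw [one_mul] at h4
    rw [sub_re, h3, abs_lt] at h2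
    simp only [sub_re, add_re, ofReal_re, mul_re, I_re, mul_zero, ofReal_im, I_im, mul_one,
      sub_self, sub_zero, h4]
    constructor <;> linarith [h2.1, h2.2]

/-- summable integrals give almost everywhere summability -/
lemma ae_summable {α E : Type*} [MeasurableSpace α] [NormedAddCommGroup E] {μ : Measure α}
    {f : ℕ → α → E} (hf : ∀ n, Integrable (f n) μ)
    (hs : Summable (fun n => ∫ x, ‖f n x‖ ∂μ)) : ∀ᵐ x ∂μ, Summable (fun n => ‖f n x‖) := by
  have h1 : ∫⁻ x, ∑' n, ‖f n x‖ₑ ∂μ ≠ ⊤ := by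
    rw [lintegral_tsum (fun n => (hf n).1.enorm)]
    have h2 : ∀ n, ∫⁻ x, ‖f n x‖ₑ ∂μ = ENNReal.ofReal (∫ x, ‖f n x‖ ∂μ) := fun n => by
      rw [ofReal_integral_norm_eq_lintegral_enorm (hf n)]
    simp_rw [h2]
    exact hs.tsum_ofReal_ne_top
  have h3 := ae_lt_top' (AEMeasurable.tsum (fun n => (hf n).1.enorm)) h1
  filter_upwards [h3] with x hx
  have h4 : (∑' n, (‖f n x‖₊ : ENNReal)) ≠ ⊤ := hx.ne
  rw [ENNReal.tsum_coe_ne_top_iff_summable] at h4
  exact NNReal.summable_coe.2 h4

/-- the exponential of a function with small positive real part is close to one in the mean -/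
lemma exp_close {P : ℂ → ℂ} (hP : Differentiable ℂ P) (h0 : (P 0).im = 0)
    (hre : ∀ x, 0 ≤ (P (ep x)).re) {s : ℝ} (hs : 0 < s) (hs2 : 2 * (P 0).re ≤ s ^ 2) :
    ∫ x, ‖1 - cexp (-P (ep x))‖ ∂hm ≤ s := by
  have hd : Differentiable ℂ (fun z => cexp (-P z)) := hP.neg.cexp
  have hc : Continuous (fun x => cexp (-P (ep x))) := hd.continuous.comp ep_cont
  have hm1 : ∫ x, cexp (-P (ep x)) ∂hm = cexp (-P 0) :=
    mean (f := fun z => cexp (-P z)) (R := 2) (by norm_num) hd.differentiableOn
  have hm2 : ∫ x, (cexp (-P (ep x))).re ∂hm = (cexp (-P 0)).re := by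
    rw [← hm1]
    exact integral_re (cont_int hc)
  have h1 : (cexp (-P 0)).re = Real.exp (-(P 0).re) := by
    have : P 0 = (((P 0).re : ℝ) : ℂ) := by
      apply Complex.ext <;> simp [h0]
    rw [this, ← ofReal_neg, ← ofReal_exp, ofReal_re, ofReal_re]
  have h2 : ∀ x, ‖1 - cexp (-P (ep x))‖ ≤ s / 2 + (1 - (cexp (-P (ep x))).re) / s := by
    intro x
    set w := cexp (-P (ep x)) with hw
    have hw1 : ‖w‖ ≤ 1 := by
      rw [hw, norm_exp, neg_re]
      exact Real.exp_le_one_iff.2 (by linarith [hre x])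
    have h3 : ‖1 - w‖ ^ 2 ≤ 2 * (1 - w.re) := by
      rw [← normSq_eq_norm_sq, normSq_apply]
      have h4 : ‖w‖ ^ 2 ≤ 1 := by nlinarith [norm_nonneg w]
      rw [← normSq_eq_norm_sq, normSq_apply] at h4
      simp only [sub_re, one_re, sub_im, one_im]
      nlinarith
    have h5 : ‖1 - w‖ * s ≤ s ^ 2 / 2 + (1 - w.re) := by nlinarith [sq_nonneg (‖1 - w‖ - s)]
    rw [← le_div_iff₀ hs] at h5
    refine h5.trans (le_of_eq ?_)
    field_simp
  have h6 : ∫ x, ‖1 - cexp (-P (ep x))‖ ∂hm ≤ ∫ x, (s / 2 + (1 - (cexp (-P (ep x))).re) / s) ∂hm := by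
    refine integral_mono (cont_int (by fun_prop)) (cont_int (by fun_prop)) h2
  refine h6.trans ?_
  have h9 : ∫ x, (1 - (cexp (-P (ep x))).re) / s ∂hm = (1 - Real.exp (-(P 0).re)) / s := by
    rw [integral_div, integral_sub (integrable_const _) (cont_int (by fun_prop)), hm2, h1]
    simp
  rw [integral_add (integrable_const _) (cont_int (by fun_prop)), h9]
  simp only [integral_const, probReal_univ, smul_eq_mul, one_mul]
  have h7 := Real.add_one_le_exp (-(P 0).re)
  have h8 : (1 - Real.exp (-(P 0).re)) / s ≤ s / 2 := by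
    rw [div_le_iff₀ hs]
    nlinarith
  linarith

/-- **Outer functions.** -/
theorem outer {u : AC → ℝ} (hu : Integrable u hm) (h0 : ∀ x, 0 ≤ u x) {ε : ℝ} (hε : 0 < ε)
    (hε1 : ε ≤ 1) :
    ∃ φ : AC → ℂ, Measurable φ ∧ (∀ᵐ x ∂hm, ‖φ x‖ ≤ Real.exp (-u x)) ∧
      ∃ c : ℝ, Real.exp (-(∫ x, u x ∂hm) - ε) ≤ c ∧ c ≤ 1 ∧
        ∀ (R : ℝ) (t : ℂ → ℂ), 1 < R → DifferentiableOn ℂ t (ball 0 R) →
          ∫ x, φ x * t (ep x) ∂hm = c * t 0 := by
  classical
  set η : ℕ → ℝ := fun k => ε / 16 * (1 / 16) ^ k with hη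
  have hη0 : ∀ k, 0 < η k := fun k => by positivity
  have hη1 : ∀ k, η (k + 1) = η k / 16 := fun k => by
    rw [hη]
    simp only [pow_succ]
    ring
  have hηs : Summable η := (summable_geometric_of_lt_one (by norm_num) (by norm_num)).mul_left _
  choose g hg hgi using fun k => hu.exists_boundedContinuous_integral_sub_le (hη0 k)
  let w : ℕ → C(AC, ℝ) := fun k => match k with
    | 0 => ⟨fun x => g 0 x, (g 0).continuous⟩
    | k + 1 => ⟨fun x => |g (k + 1) x - g k x|, by fun_prop⟩
  choose P hPd hP0 hPr using fun k => dense_re (w k) (hη0 k)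
  -- values at zero
  have hPm : ∀ k, (P k 0).re = ∫ x, (P k (ep x)).re ∂hm := by
    intro k
    have h1 : ∫ x, P k (ep x) ∂hm = P k 0 := mean (R := 2) (by norm_num) (hPd k).differentiableOn
    rw [← h1]
    exact (integral_re (cont_int ((hPd k).continuous.comp ep_cont))).symm
  have hPc : ∀ k, Continuous (fun x => P k (ep x)) := fun k => (hPd k).continuous.comp ep_cont
  have hgc : ∀ k, Continuous (fun x => g k x) := fun k => (g k).continuous
  have hP00 : (P 0 0).re ≤ (∫ x, u x ∂hm) + 3 * η 0 := by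
    rw [hPm]
    have h1 : ∫ x, (P 0 (ep x)).re ∂hm ≤ ∫ x, (g 0 x + 2 * η 0) ∂hm :=
      integral_mono (cont_int (continuous_re.comp (hPc 0))) (cont_int (by fun_prop))
        (fun x => (hPr 0 x).2)
    have h2 : ∫ x, (g 0 x + 2 * η 0) ∂hm = (∫ x, g 0 x ∂hm) + 2 * η 0 := by
      rw [integral_add (cont_int (hgc 0)) (integrable_const _)]
      simp
    have h3 : (∫ x, g 0 x ∂hm) - (∫ x, u x ∂hm) ≤ η 0 := by
      rw [← integral_sub (cont_int (hgc 0)) hu]
      refine (integral_mono ((cont_int (hgc 0)).sub hu) (hu.sub (cont_int (hgc 0))).norm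
        (fun x => ?_)).trans (hg 0)
      simp only [Pi.sub_apply, Real.norm_eq_abs]
      rw [abs_sub_comm]
      exact le_abs_self _
    linarith
  have hPk : ∀ k, (P (k + 1) 0).re ≤ 2 * η k := by
    intro k
    rw [hPm]
    have h1 : ∫ x, (P (k + 1) (ep x)).re ∂hm ≤ ∫ x, (|g (k + 1) x - g k x| + 2 * η (k + 1)) ∂hm :=
      integral_mono (cont_int (continuous_re.comp (hPc _))) (cont_int (by fun_prop))
        (fun x => (hPr (k + 1) x).2)
    have h2 : ∫ x, (|g (k + 1) x - g k x| + 2 * η (k + 1)) ∂hm =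
        (∫ x, |g (k + 1) x - g k x| ∂hm) + 2 * η (k + 1) := by
      rw [integral_add (cont_int (by fun_prop)) (integrable_const _)]
      simp
    have h3 : ∫ x, |g (k + 1) x - g k x| ∂hm ≤
        ∫ x, (‖u x - g (k + 1) x‖ + ‖u x - g k x‖) ∂hm := by
      refine integral_mono (cont_int (by fun_prop)) ((hu.sub (cont_int (hgc _))).norm.add
        (hu.sub (cont_int (hgc _))).norm) (fun x => ?_)
      simp only [Real.norm_eq_abs]
      have := abs_sub_le (g (k + 1) x) (u x) (g k x)
      rw [abs_sub_comm (g (k + 1) x) (u x)] at this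
      exact this
    have h4 : ∫ x, (‖u x - g (k + 1) x‖ + ‖u x - g k x‖) ∂hm =
        (∫ x, ‖u x - g (k + 1) x‖ ∂hm) + ∫ x, ‖u x - g k x‖ ∂hm :=
      integral_add (hu.sub (cont_int (hgc _))).norm (hu.sub (cont_int (hgc _))).norm
    have h5 := hg k
    have h6 := hg (k + 1)
    have h7 := hη1 k
    have h8 := hη0 k
    linarith
  -- the partial sums
  set S : ℕ → ℂ → ℂ := fun n z => ∑ k ∈ Finset.range (n + 1), P k z with hS
  have hSd : ∀ n, Differentiable ℂ (S n) := fun n => by
    simp only [hS]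
    exact Differentiable.fun_sum (fun k _ => hPd k)
  have hS1 : ∀ n z, S (n + 1) z = S n z + P (n + 1) z := fun n z => by
    simp only [hS]
    rw [Finset.sum_range_succ]
  have hSg : ∀ n x, g n x ≤ (S n (ep x)).re := by
    intro n x
    induction n with
    | zero =>
      simp only [hS, zero_add, Finset.range_one, Finset.sum_singleton]
      exact (hPr 0 x).1
    | succ n ih =>
      rw [hS1, add_re]
      have h1 : |g (n + 1) x - g n x| ≤ (P (n + 1) (ep x)).re := (hPr (n + 1) x).1
      have h2 := le_abs_self (g (n + 1) x - g n x)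
      linarith
  have hP1 : ∀ k x, 0 ≤ (P (k + 1) (ep x)).re := fun k x =>
    (abs_nonneg _).trans (hPr (k + 1) x).1
  obtain ⟨B, hB⟩ : ∃ B : ℝ, ∀ x, ‖g 0 x‖ ≤ B := ⟨‖g 0‖, (g 0).norm_coe_le_norm⟩
  have hSB : ∀ n x, -B ≤ (S n (ep x)).re := by
    intro n x
    induction n with
    | zero =>
      refine le_trans ?_ (hSg 0 x)
      have := hB x
      rw [Real.norm_eq_abs, abs_le] at this
      exact this.1
    | succ n ih =>
      rw [hS1, add_re]
      linarith [hP1 n x]
  set F : ℕ → AC → ℂ := fun n x => cexp (-S n (ep x)) with hF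
  have hFc : ∀ n, Continuous (F n) := fun n =>
    ((hSd n).neg.cexp.continuous).comp ep_cont
  have hFn : ∀ n x, ‖F n x‖ = Real.exp (-(S n (ep x)).re) := fun n x => by
    simp only [hF, norm_exp, neg_re]
  have hFB : ∀ n x, ‖F n x‖ ≤ Real.exp B := fun n x => by
    rw [hFn]
    exact Real.exp_le_exp.2 (by linarith [hSB n x])
  -- convergence almost everywhere
  have hdiff : ∀ n, ∫ x, ‖F (n + 1) x - F n x‖ ∂hm ≤ Real.exp B * (1 / 4) ^ n := by
    intro n
    have h1 : ∀ x, ‖F (n + 1) x - F n x‖ ≤ Real.exp B * ‖1 - cexp (-P (n + 1) (ep x))‖ := by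
      intro x
      have h2 : F (n + 1) x - F n x = -(F n x * (1 - cexp (-P (n + 1) (ep x)))) := by
        simp only [hF, hS1, neg_add, Complex.exp_add]
        ring
      rw [h2, norm_neg, norm_mul]
      exact mul_le_mul_of_nonneg_right (hFB n x) (norm_nonneg _)
    have hc2 : Continuous (fun x => 1 - cexp (-P (n + 1) (ep x))) :=
      continuous_const.sub (Complex.continuous_exp.comp (hPc (n + 1)).neg)
    refine (integral_mono (cont_int ((hFc (n + 1)).sub (hFc n)).norm)
      ((cont_int hc2).norm.const_mul _) h1).trans ?_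
    rw [integral_const_mul]
    refine mul_le_mul_of_nonneg_left ?_ (Real.exp_pos _).le
    refine exp_close (hPd (n + 1)) (hP0 (n + 1)) (hP1 n) (by positivity) ?_
    have h3 := hPk n
    have h4 : ((1 / 4 : ℝ) ^ n) ^ 2 = (1 / 16) ^ n := by
      rw [← pow_mul, mul_comm, pow_mul]
      norm_num
    rw [h4]
    have h5 : η n ≤ 1 / 16 * (1 / 16) ^ n := by
      simp only [hη]
      gcongr
    have h6 : (0 : ℝ) < (1 / 16) ^ n := by positivity
    nlinarith
  have hconv : ∀ᵐ x ∂hm, ∃ l : ℂ, Tendsto (fun n => F n x) atTop (𝓝 l) := by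
    have h1 := ae_summable (μ := hm) (f := fun n x => F (n + 1) x - F n x)
      (fun n => cont_int ((hFc (n + 1)).sub (hFc n)))
      (Summable.of_nonneg_of_le (fun n => integral_nonneg (fun x => norm_nonneg _)) hdiff
        ((summable_geometric_of_lt_one (by norm_num) (by norm_num)).mul_left _))
    filter_upwards [h1] with x hx
    have h2 : Summable (fun n => F (n + 1) x - F n x) := Summable.of_norm hx
    have h3 := h2.hasSum.tendsto_sum_nat
    refine ⟨(∑' n, (F (n + 1) x - F n x)) + F 0 x, ?_⟩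
    have h4 := h3.add_const (F 0 x)
    refine h4.congr (fun n => ?_)
    rw [Finset.sum_range_sub (fun n => F n x)]
    ring
  obtain ⟨φ, hφm, hφ⟩ := measurable_limit_of_tendsto_metrizable_ae
    (fun n => (hFc n).measurable.aemeasurable (μ := hm)) hconv
  have hgu : ∀ᵐ x ∂hm, Tendsto (fun n => g n x) atTop (𝓝 (u x)) := by
    have h1 := ae_summable (μ := hm) (f := fun n x => u x - g n x)
      (fun n => hu.sub (cont_int (hgc n)))
      (Summable.of_nonneg_of_le (fun n => integral_nonneg (fun x => norm_nonneg _)) hg hηs)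
    filter_upwards [h1] with x hx
    have h2 := hx.tendsto_atTop_zero
    have h3 : Tendsto (fun n => u x - g n x) atTop (𝓝 0) := tendsto_zero_iff_norm_tendsto_zero.2 h2
    have h4 := h3.const_sub (u x)
    simpa using h4
  refine ⟨φ, hφm, ?_, ?_⟩
  · filter_upwards [hφ, hgu] with x hx hx2
    refine le_of_tendsto_of_tendsto hx.norm
      ((Real.continuous_exp.tendsto _).comp hx2.neg) (Eventually.of_forall (fun n => ?_))
    simp only [Function.comp_apply]
    rw [hFn]
    exact Real.exp_le_exp.2 (by linarith [hSg n x])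
  · -- the test functions
    have hlim : ∀ (R : ℝ) (t : ℂ → ℂ), 1 < R → DifferentiableOn ℂ t (ball 0 R) →
        Tendsto (fun n => cexp (-S n 0) * t 0) atTop (𝓝 (∫ x, φ x * t (ep x) ∂hm)) := by
      intro R t hR ht
      have h1 : ∀ n, ∫ x, F n x * t (ep x) ∂hm = cexp (-S n 0) * t 0 := fun n =>
        mean (f := fun z => cexp (-S n z) * t z) hR ((hSd n).neg.cexp.differentiableOn.mul ht)
      simp_rw [← h1]
      have htc := cont_ep hR ht
      obtain ⟨T, hT⟩ := (isCompact_univ (X := AC)).exists_bound_of_continuousOn htc.continuousOn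
      refine tendsto_integral_of_dominated_convergence (fun _ => Real.exp B * T)
        (fun n => ((hFc n).mul htc).aestronglyMeasurable) (integrable_const _) (fun n => ?_) ?_
      · refine Eventually.of_forall (fun x => ?_)
        rw [norm_mul]
        exact mul_le_mul (hFB n x) (hT x (mem_univ _)) (norm_nonneg _) (Real.exp_pos _).le
      · filter_upwards [hφ] with x hx
        exact hx.mul_const _
    have hl1 : Tendsto (fun n => cexp (-S n 0)) atTop (𝓝 (∫ x, φ x ∂hm)) := by
      have h2 := hlim 2 (fun _ => 1) (by norm_num) (differentiableOn_const _)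
      simpa using h2
    have hSre : ∀ n, S n 0 = (((S n 0).re : ℝ) : ℂ) := by
      intro n
      apply Complex.ext
      · simp
      · simp only [hS, ofReal_im]
        rw [im_sum]
        exact Finset.sum_eq_zero (fun k _ => hP0 k)
    have hl2 : Tendsto (fun n => Real.exp (-(S n 0).re)) atTop (𝓝 (∫ x, φ x ∂hm).re) := by
      have h3 := (continuous_re.tendsto _).comp hl1
      refine h3.congr (fun n => ?_)
      simp only [Function.comp_apply]
      rw [hSre n, ← ofReal_neg, ← ofReal_exp, ofReal_re, ofReal_re]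
    have hl3 : (∫ x, φ x ∂hm) = (((∫ x, φ x ∂hm).re : ℝ) : ℂ) := by
      refine tendsto_nhds_unique hl1 ?_
      have h4 := (continuous_ofReal.tendsto _).comp hl2
      refine h4.congr (fun n => ?_)
      simp only [Function.comp_apply]
      rw [hSre n, ← ofReal_neg, ← ofReal_exp, ofReal_re]
    have hSle : ∀ n, (S n 0).re ≤ (∫ x, u x ∂hm) + ε := by
      intro n
      have h5 : (S n 0).re ≤ (∫ x, u x ∂hm) + 3 * η 0 + 4 * (η 0 - η n) := by
        induction n with
        | zero =>
          simp only [hS, zero_add, Finset.range_one, Finset.sum_singleton, sub_self, mul_zero,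
            add_zero]
          exact hP00
        | succ n ih =>
          rw [hS1, add_re]
          have h6 := hPk n
          have h7 := hη1 n
          have h8 := hη0 n
          linarith
      have h9 := hη0 n
      have h10 : η 0 = ε / 16 := by simp [hη]
      linarith
    have hSge : ∀ n, -η n ≤ (S n 0).re := by
      intro n
      have h1 : ∫ x, S n (ep x) ∂hm = S n 0 := mean (R := 2) (by norm_num) (hSd n).differentiableOn
      have hSc : Continuous (fun x => S n (ep x)) := (hSd n).continuous.comp ep_cont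
      have h2 : (S n 0).re = ∫ x, (S n (ep x)).re ∂hm := by
        rw [← h1]
        exact (integral_re (cont_int hSc)).symm
      rw [h2]
      have h3 : ∫ x, g n x ∂hm ≤ ∫ x, (S n (ep x)).re ∂hm :=
        integral_mono (cont_int (hgc n)) (cont_int (continuous_re.comp hSc)) (fun x => hSg n x)
      have h4 : (∫ x, u x ∂hm) - (∫ x, g n x ∂hm) ≤ η n := by
        rw [← integral_sub hu (cont_int (hgc n))]
        refine (integral_mono (hu.sub (cont_int (hgc n))) (hu.sub (cont_int (hgc n))).norm
          (fun x => ?_)).trans (hg n)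
        simp only [Pi.sub_apply, Real.norm_eq_abs]
        exact le_abs_self _
      have h5 : 0 ≤ ∫ x, u x ∂hm := integral_nonneg h0
      linarith
    refine ⟨(∫ x, φ x ∂hm).re, ?_, ?_, fun R t hR ht => ?_⟩
    · refine ge_of_tendsto hl2 (Eventually.of_forall (fun n => ?_))
      exact Real.exp_le_exp.2 (by linarith [hSle n])
    · have h1 : Tendsto (fun n => Real.exp (η n)) atTop (𝓝 1) := by
        have := (Real.continuous_exp.tendsto 0).comp hηs.tendsto_atTop_zero
        rw [Real.exp_zero] at this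
        exact this
      refine le_of_tendsto_of_tendsto hl2 h1 (Eventually.of_forall (fun n => ?_))
      exact Real.exp_le_exp.2 (by linarith [hSge n])
    · have h1 := hlim R t hR ht
      have h2 := hl1.mul_const (t 0)
      have h3 := tendsto_nhds_unique h1 h2
      rw [h3, ← hl3]

/-- outer functions, on the interval -/
theorem outerR {L : ℝ → ℝ} (hL : Measurable L) (h0 : ∀ x, 0 ≤ L x)
    (hi : IntegrableOn L (Ioc 0 (2 * Real.pi))) {ε : ℝ} (hε : 0 < ε) (hε1 : ε ≤ 1) :
    ∃ φ : ℝ → ℂ, Measurable φ ∧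
      (∀ᵐ θ ∂(volume.restrict (Ioc 0 (2 * Real.pi))), ‖φ θ‖ ≤ Real.exp (-L θ)) ∧
      ∃ c : ℝ, Real.exp (-((2 * Real.pi)⁻¹ * ∫ θ in Ioc 0 (2 * Real.pi), L θ) - ε) ≤ c ∧ c ≤ 1 ∧
        ∀ (R : ℝ) (t : ℂ → ℂ), 1 < R → DifferentiableOn ℂ t (ball 0 R) →
          ∫ θ in Ioc 0 (2 * Real.pi), φ θ * t (circleMap 0 1 θ) = 2 * Real.pi * (c * t 0) := by
  have hpi : (0 : ℝ) < 2 * Real.pi := by positivity
  set u : AC → ℝ := AddCircle.liftIoc (2 * Real.pi) 0 L with hu
  have hum : Measurable u := by
    have h1 : u = fun x => L ((AddCircle.measurableEquivIoc (2 * Real.pi) 0 x : Ioc (0 : ℝ) (0 + 2 * Real.pi)) : ℝ) := rfl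
    rw [h1]
    exact hL.comp (measurable_subtype_coe.comp (AddCircle.measurableEquivIoc _ _).measurable)
  have hu0 : ∀ x, 0 ≤ u x := fun x => h0 _
  have huθ : ∀ θ ∈ Ioc (0 : ℝ) (2 * Real.pi), u (θ : AC) = L θ := by
    intro θ hθ
    rw [hu, AddCircle.liftIoc_coe_apply]
    rw [zero_add]
    exact hθ
  have hmp := AddCircle.measurePreserving_mk (2 * Real.pi) 0
  rw [zero_add] at hmp
  have hui : Integrable u (volume : Measure AC) := by
    rw [← hmp.integrable_comp hum.aestronglyMeasurable]
    refine hi.congr ?_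
    filter_upwards [ae_restrict_mem measurableSet_Ioc] with θ hθ
    exact (huθ θ hθ).symm
  have hui2 : Integrable u hm := by
    have h1 : hm = (ENNReal.ofReal (2 * Real.pi))⁻¹ • (volume : Measure AC) := by
      rw [AddCircle.volume_eq_smul_haarAddCircle, smul_smul, ENNReal.inv_mul_cancel, one_smul]
      · exact (ENNReal.ofReal_pos.2 hpi).ne'
      · exact ENNReal.ofReal_ne_top
    rw [h1]
    exact hui.smul_measure (ENNReal.inv_ne_top.2 (ENNReal.ofReal_pos.2 hpi).ne')
  obtain ⟨φ, hφm, hφ, c, hc1, hc2, hφt⟩ := outer hui2 hu0 hε hε1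
  refine ⟨fun θ => φ θ, hφm.comp AddCircle.measurable_mk', ?_, c, ?_, hc2, fun R t hR ht => ?_⟩
  · have h1 : ∀ᵐ x ∂(volume : Measure AC), ‖φ x‖ ≤ Real.exp (-u x) := by
      rw [AddCircle.volume_eq_smul_haarAddCircle]
      exact Measure.ae_smul_measure hφ _
    have h2 := hmp.quasiMeasurePreserving.ae h1
    filter_upwards [h2, ae_restrict_mem measurableSet_Ioc] with θ hθ hθ2
    rw [huθ θ hθ2] at hθ
    exact hθ
  · refine le_trans (le_of_eq ?_) hc1
    congr 1
    have h1 : ∫ x, u x ∂hm = (2 * Real.pi)⁻¹ * ∫ θ in Ioc 0 (2 * Real.pi), L θ := by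
      rw [int_eq, smul_eq_mul, intervalIntegral.integral_of_le hpi.le]
      congr 1
      exact setIntegral_congr_fun measurableSet_Ioc (fun θ hθ => huθ θ hθ)
    rw [h1]
  · have h1 := hφt R t hR ht
    rw [int_eq, intervalIntegral.integral_of_le hpi.le] at h1
    have h2 : ∫ θ in Ioc 0 (2 * Real.pi), φ θ * t (circleMap 0 1 θ) =
        ∫ θ in Ioc 0 (2 * Real.pi), φ (θ : AC) * t (ep θ) := by
      refine setIntegral_congr_fun measurableSet_Ioc (fun θ _ => ?_)
      simp only [ep_coe]
    rw [h2, ← h1, real_smul]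
    push_cast
    have : (2 * (Real.pi : ℂ)) ≠ 0 := by
      norm_cast
      exact hpi.ne'
    field_simp

end Pool.Agent.Q77.Cp
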