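import Mathlib

/-!
Families of bounded holomorphic functions depending holomorphically on a parameter, and measurable
selection of solutions of the Bezout equation on the unit circle of parameters.
-/

set_option autoImplicit false

open MeasureTheory Metric Set Filter Topology Complex

namespace Pool.Agent.Q77.Cp

variable {X : Type} [NormedAddCommGroup X] [NormedSpace ℂ X]

/-- `f₁ h₁ + f₂ h₂ = 1` on `D` with `h₁, h₂` holomorphic and bounded by `K` -/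
def Solv (D : Set X) (f₁ f₂ : X → ℂ) (K : ℝ) : Prop :=
  ∃ h₁ h₂ : X → ℂ, DifferentiableOn ℂ h₁ D ∧ DifferentiableOn ℂ h₂ D ∧
    (∀ z ∈ D, ‖h₁ z‖ ≤ K ∧ ‖h₂ z‖ ≤ K) ∧ ∀ z ∈ D, f₁ z * h₁ z + f₂ z * h₂ z = 1

/-- a holomorphic family of holomorphic functions bounded by one -/
def Hol (D : Set X) (R : ℝ) (F : X → ℂ → ℂ) : Prop :=
  (∀ l ∈ ball (0 : ℂ) R, DifferentiableOn ℂ (fun z => F z l) D) ∧
    (∀ z ∈ D, DifferentiableOn ℂ (F z) (ball 0 R)) ∧ ∀ z ∈ D, ∀ l ∈ ball (0 : ℂ) R, ‖F z l‖ ≤ 1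

lemma Hol.lip {D : Set X} {R : ℝ} {F : X → ℂ → ℂ} (h : Hol D R F) (hR : 1 < R) {z : X}
    (hz : z ∈ D) {a b : ℂ} (ha : ‖a‖ ≤ 1) (hb : ‖b‖ ≤ 1) :
    ‖F z a - F z b‖ ≤ 2 / (R - 1) * ‖a - b‖ := by
  have hr : 0 < (R - 1) / 2 := by linarith
  have hsub : ∀ c : ℂ, ‖c‖ ≤ 1 → closedBall c ((R - 1) / 2) ⊆ ball 0 R := by
    intro c hc w hw
    rw [mem_closedBall, dist_eq_norm] at hw
    rw [mem_ball_zero_iff]
    have := norm_le_norm_add_norm_sub' w c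
    linarith
  refine Convex.norm_image_sub_le_of_norm_deriv_le (s := closedBall (0 : ℂ) 1) (f := F z)
    (fun c hc => ?_) (fun c hc => ?_) (convex_closedBall _ _) (by simpa using hb) (by simpa using ha)
  · rw [mem_closedBall_zero_iff] at hc
    exact (h.2.1 z hz).differentiableAt (isOpen_ball.mem_nhds (hsub c hc (mem_closedBall_self hr.le)))
  · rw [mem_closedBall_zero_iff] at hc
    have h1 : DiffContOnCl ℂ (F z) (ball c ((R - 1) / 2)) := by
      refine DifferentiableOn.diffContOnCl ?_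
      rw [closure_ball _ hr.ne']
      exact (h.2.1 z hz).mono (hsub c hc)
    refine (norm_deriv_le_of_forall_mem_sphere_norm_le hr h1 (C := 1) (fun w hw => ?_)).trans
      (le_of_eq (by field_simp))
    exact h.2.2 z hz w (hsub c hc (sphere_subset_closedBall hw))

lemma cm_norm (θ : ℝ) : ‖circleMap 0 1 θ‖ = 1 := by simp

lemma cm_mem {R : ℝ} (hR : 1 < R) (θ : ℝ) : circleMap 0 1 θ ∈ ball (0 : ℂ) R := by
  rw [mem_ball_zero_iff, cm_norm]
  exact hR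

lemma cm_lip (a b : ℝ) : ‖circleMap 0 1 a - circleMap 0 1 b‖ ≤ |a - b| := by
  have h := (lipschitzWith_circleMap 0 1).dist_le_mul a b
  rw [dist_eq_norm, Real.dist_eq] at h
  simpa using h

/-- the solution transported to a neighbouring parameter -/
lemma transport {a b a' b' h k : ℂ} {e K : ℝ} (h1 : a * h + b * k = 1) (hh : ‖h‖ ≤ K) (hk : ‖k‖ ≤ K)
    (ha : ‖a' - a‖ ≤ e) (hb : ‖b' - b‖ ≤ e) (he : 2 * (e * K) ≤ 1 / 3) :
    a' * h + b' * k ≠ 0 ∧ ‖h / (a' * h + b' * k)‖ ≤ 3 / 2 * K ∧ ‖k / (a' * h + b' * k)‖ ≤ 3 / 2 * K ∧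
      a' * (h / (a' * h + b' * k)) + b' * (k / (a' * h + b' * k)) = 1 := by
  have hK : 0 ≤ K := (norm_nonneg _).trans hh
  have he0 : 0 ≤ e := (norm_nonneg _).trans ha
  have h2 : ‖1 - (a' * h + b' * k)‖ ≤ 1 / 3 := by
    have h3 : 1 - (a' * h + b' * k) = -((a' - a) * h + (b' - b) * k) := by
      linear_combination -h1
    rw [h3, norm_neg]
    refine (norm_add_le _ _).trans ?_
    rw [norm_mul, norm_mul]
    have h4 : ‖a' - a‖ * ‖h‖ ≤ e * K := mul_le_mul ha hh (norm_nonneg _) he0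
    have h5 : ‖b' - b‖ * ‖k‖ ≤ e * K := mul_le_mul hb hk (norm_nonneg _) he0
    linarith
  have h6 : 2 / 3 ≤ ‖a' * h + b' * k‖ := by
    have h7 := norm_sub_norm_le (1 : ℂ) (1 - (a' * h + b' * k))
    rw [sub_sub_cancel, norm_one] at h7
    linarith
  have h8 : a' * h + b' * k ≠ 0 := by
    intro h9
    rw [h9, norm_zero] at h6
    linarith
  have h10 : 0 < ‖a' * h + b' * k‖ := by linarith
  refine ⟨h8, ?_, ?_, ?_⟩
  · rw [norm_div, div_le_iff₀ h10]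
    nlinarith
  · rw [norm_div, div_le_iff₀ h10]
    nlinarith
  · field_simp

/-- **Measurable selection of solutions.** -/
theorem select {D : Set X} {R : ℝ} (hR : 1 < R) {F₁ F₂ : X → ℂ → ℂ} (h1 : Hol D R F₁)
    (h2 : Hol D R F₂) {M : ℝ → ℝ} (hM : Measurable M) (hM1 : ∀ θ, 1 ≤ M θ)
    (hs : ∀ᵐ θ ∂(volume.restrict (Ioc 0 (2 * Real.pi))),
      Solv D (fun z => F₁ z (circleMap 0 1 θ)) (fun z => F₂ z (circleMap 0 1 θ)) (M θ)) :
    ∃ h₁ h₂ : ℝ → X → ℂ, (∀ θ, DifferentiableOn ℂ (h₁ θ) D) ∧ (∀ θ, DifferentiableOn ℂ (h₂ θ) D) ∧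
      (∀ z ∈ D, Measurable (fun θ => h₁ θ z)) ∧ (∀ z ∈ D, Measurable (fun θ => h₂ θ z)) ∧
      (∀ θ, ∀ z ∈ D, ‖h₁ θ z‖ ≤ 3 * M θ ∧ ‖h₂ θ z‖ ≤ 3 * M θ) ∧
      ∀ᵐ θ ∂(volume.restrict (Ioc 0 (2 * Real.pi))), ∀ z ∈ D,
        F₁ z (circleMap 0 1 θ) * h₁ θ z + F₂ z (circleMap 0 1 θ) * h₂ θ z = 1 := by
  classical
  set L : ℝ := 2 / (R - 1) with hL
  have hL0 : 0 < L := by
    rw [hL]
    have : 0 < R - 1 := by linarith
    positivity
  set idx : ℝ → ℕ × ℤ := fun θ => (⌊M θ⌋₊, ⌊θ * (6 * L * (⌊M θ⌋₊ + 1))⌋) with hidx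
  have hidxm : Measurable idx := by
    have hk : Measurable (fun θ => ⌊M θ⌋₊) := Nat.measurable_floor.comp hM
    have hkr : Measurable (fun θ => ((⌊M θ⌋₊ : ℕ) : ℝ)) := measurable_from_top.comp hk
    exact hk.prodMk (Measurable.floor (measurable_id.mul ((hkr.add_const 1).const_mul _)))
  let good : ℝ → Prop := fun θ => θ ∈ Ioc 0 (2 * Real.pi) ∧
    Solv D (fun z => F₁ z (circleMap 0 1 θ)) (fun z => F₂ z (circleMap 0 1 θ)) (M θ)
  set G : Set (ℕ × ℤ) := {i | ∃ θ, good θ ∧ idx θ = i} with hG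
  have hrep : ∀ i : ℕ × ℤ, ∃ (t : ℝ) (H₁ H₂ : X → ℂ), i ∈ G → (idx t = i ∧
      DifferentiableOn ℂ H₁ D ∧ DifferentiableOn ℂ H₂ D ∧
      (∀ z ∈ D, ‖H₁ z‖ ≤ M t ∧ ‖H₂ z‖ ≤ M t) ∧
      ∀ z ∈ D, F₁ z (circleMap 0 1 t) * H₁ z + F₂ z (circleMap 0 1 t) * H₂ z = 1) := by
    intro i
    by_cases hi : i ∈ G
    · obtain ⟨t, ⟨_, H₁, H₂, a1, a2, a3, a4⟩, ht⟩ := hi
      exact ⟨t, H₁, H₂, fun _ => ⟨ht, a1, a2, a3, a4⟩⟩
    · exact ⟨0, 0, 0, fun h => absurd h hi⟩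
  choose t H₁ H₂ hH using hrep
  -- estimates
  have hest : ∀ θ, idx θ ∈ G → ∀ z ∈ D,
      F₁ z (circleMap 0 1 θ) * H₁ (idx θ) z + F₂ z (circleMap 0 1 θ) * H₂ (idx θ) z ≠ 0 ∧
      ‖H₁ (idx θ) z / (F₁ z (circleMap 0 1 θ) * H₁ (idx θ) z +
        F₂ z (circleMap 0 1 θ) * H₂ (idx θ) z)‖ ≤ 3 / 2 * M (t (idx θ)) ∧
      ‖H₂ (idx θ) z / (F₁ z (circleMap 0 1 θ) * H₁ (idx θ) z +
        F₂ z (circleMap 0 1 θ) * H₂ (idx θ) z)‖ ≤ 3 / 2 * M (t (idx θ)) ∧
      F₁ z (circleMap 0 1 θ) * (H₁ (idx θ) z / (F₁ z (circleMap 0 1 θ) * H₁ (idx θ) z +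
        F₂ z (circleMap 0 1 θ) * H₂ (idx θ) z)) + F₂ z (circleMap 0 1 θ) *
        (H₂ (idx θ) z / (F₁ z (circleMap 0 1 θ) * H₁ (idx θ) z +
        F₂ z (circleMap 0 1 θ) * H₂ (idx θ) z)) = 1 := by
    intro θ hθ z hz
    obtain ⟨b1, -, -, b4, b5⟩ := hH (idx θ) hθ
    have hk : ⌊M (t (idx θ))⌋₊ = ⌊M θ⌋₊ := congrArg Prod.fst b1
    have hj : ⌊t (idx θ) * (6 * L * (⌊M (t (idx θ))⌋₊ + 1))⌋ = ⌊θ * (6 * L * (⌊M θ⌋₊ + 1))⌋ :=
      congrArg Prod.snd b1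
    rw [hk] at hj
    set k : ℝ := (⌊M θ⌋₊ : ℝ) with hkd
    have hk0 : 0 ≤ k := Nat.cast_nonneg _
    have hN : 0 < 6 * L * (k + 1) := by positivity
    have hclose : |θ - t (idx θ)| ≤ 1 / (6 * L * (k + 1)) := by
      rw [le_div_iff₀ hN]
      have h3 := Int.floor_le (θ * (6 * L * (k + 1)))
      have h4 := Int.lt_floor_add_one (θ * (6 * L * (k + 1)))
      have h5 := Int.floor_le (t (idx θ) * (6 * L * (k + 1)))
      have h6 := Int.lt_floor_add_one (t (idx θ) * (6 * L * (k + 1)))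
      rw [hj] at h5 h6
      rw [← abs_of_pos hN, ← abs_mul, abs_le]
      constructor <;> nlinarith
    have hMt : M (t (idx θ)) ≤ k + 1 := by
      have := Nat.lt_floor_add_one (M (t (idx θ)))
      rw [hk] at this
      exact this.le
    have hd : ∀ F : X → ℂ → ℂ, Hol D R F →
        ‖F z (circleMap 0 1 θ) - F z (circleMap 0 1 (t (idx θ)))‖ ≤ 1 / (6 * (k + 1)) := by
      intro F hF
      refine (hF.lip hR hz (cm_norm _).le (cm_norm _).le).trans ?_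
      have h7 := (cm_lip θ (t (idx θ))).trans hclose
      calc L * ‖circleMap 0 1 θ - circleMap 0 1 (t (idx θ))‖ ≤ L * (1 / (6 * L * (k + 1))) :=
            mul_le_mul_of_nonneg_left h7 hL0.le
        _ = 1 / (6 * (k + 1)) := by field_simp
    refine transport (b5 z hz) (b4 z hz).1 (b4 z hz).2 (hd F₁ h1) (hd F₂ h2) ?_
    have h8 : 0 < k + 1 := by positivity
    rw [div_mul_eq_mul_div, one_mul, ← mul_div_assoc, div_le_iff₀ (by positivity)]
    linarith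
  have hMb : ∀ θ, idx θ ∈ G → 3 / 2 * M (t (idx θ)) ≤ 3 * M θ := by
    intro θ hθ
    obtain ⟨b1, -⟩ := hH (idx θ) hθ
    have hk : ⌊M (t (idx θ))⌋₊ = ⌊M θ⌋₊ := congrArg Prod.fst b1
    have h3 := Nat.lt_floor_add_one (M (t (idx θ)))
    rw [hk] at h3
    have h4 := Nat.floor_le (zero_le_one.trans (hM1 θ))
    have h5 := hM1 θ
    linarith
  have hmeas : ∀ (K : ℕ × ℤ → X → ℂ), ∀ z ∈ D, Measurable (fun θ => if idx θ ∈ G then
      K (idx θ) z / (F₁ z (circleMap 0 1 θ) * H₁ (idx θ) z +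
        F₂ z (circleMap 0 1 θ) * H₂ (idx θ) z) else 0) := by
    intro K z hz
    have hF : ∀ F : X → ℂ → ℂ, Hol D R F → Measurable (fun θ : ℝ => F z (circleMap 0 1 θ)) := by
      intro F hF
      refine Continuous.measurable ?_
      rw [continuous_iff_continuousAt]
      intro θ
      exact ContinuousAt.comp (f := circleMap 0 1) (g := F z)
        (((hF.2.1 z hz).differentiableAt (isOpen_ball.mem_nhds (cm_mem hR θ))).continuousAt)
        (continuous_circleMap 0 1).continuousAt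
    have h3 : Measurable (fun p : ℝ × (ℕ × ℤ) => if p.2 ∈ G then
      K p.2 z / (F₁ z (circleMap 0 1 p.1) * H₁ p.2 z +
        F₂ z (circleMap 0 1 p.1) * H₂ p.2 z) else 0) := by
      refine measurable_from_prod_countable_left (fun i => ?_)
      by_cases hi : i ∈ G
      · simp only [hi, if_true]
        exact measurable_const.div (((hF F₁ h1).mul_const _).add ((hF F₂ h2).mul_const _))
      · simp only [hi, if_false]
        exact measurable_const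
    exact h3.comp (measurable_id.prodMk hidxm)
  have hdiff : ∀ (K : ℕ × ℤ → X → ℂ), (∀ i ∈ G, DifferentiableOn ℂ (K i) D) → ∀ θ,
      DifferentiableOn ℂ (fun z => if idx θ ∈ G then
      K (idx θ) z / (F₁ z (circleMap 0 1 θ) * H₁ (idx θ) z +
        F₂ z (circleMap 0 1 θ) * H₂ (idx θ) z) else 0) D := by
    intro K hK θ
    by_cases hi : idx θ ∈ G
    · simp only [hi, if_true]
      obtain ⟨-, b2, b3, -⟩ := hH (idx θ) hi
      simp only [div_eq_mul_inv]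
      exact (hK _ hi).fun_mul (DifferentiableOn.fun_inv (((h1.1 _ (cm_mem hR θ)).fun_mul b2).fun_add
        ((h2.1 _ (cm_mem hR θ)).fun_mul b3)) (fun z hz => (hest θ hi z hz).1))
    · simp only [hi, if_false]
      exact differentiableOn_const _
  refine ⟨_, _, hdiff H₁ (fun i hi => (hH i hi).2.1), hdiff H₂ (fun i hi => (hH i hi).2.2.1),
    hmeas H₁, hmeas H₂, fun θ z hz => ?_, ?_⟩
  · by_cases hi : idx θ ∈ G
    · simp only [hi, if_true]
      obtain ⟨-, c2, c3, -⟩ := hest θ hi z hz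
      exact ⟨c2.trans (hMb θ hi), c3.trans (hMb θ hi)⟩
    · simp only [hi, if_false, norm_zero]
      have := hM1 θ
      constructor <;> linarith
  · filter_upwards [hs, ae_restrict_mem measurableSet_Ioc] with θ hθ hθ2 z hz
    have hi : idx θ ∈ G := ⟨θ, ⟨hθ2, hθ⟩, rfl⟩
    simp only [hi, if_true]
    exact (hest θ hi z hz).2.2.2

end Pool.Agent.Q77.Cp
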