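import Mathlib
import Pool.Agent.Q77.Cp.Outer
import Pool.Agent.Q77.Cp.Sel
import Pool.Agent.HopfPinch.AnS1
import Pool.Agent.H720R2.HP.Final

/-!
The logarithm of the corona constant of two functions is plurisubharmonic up to a constant.
-/

set_option autoImplicit false

open MeasureTheory Metric Set Filter Topology Complex

namespace Pool.Agent.Q77.Cp

/-- Carleson's corona theorem for two functions on a disc. -/
theorem disc {δ : ℝ} (hδ : 0 < δ) : ∃ C : ℝ, 0 ≤ C ∧ ∀ (R : ℝ), 0 < R → ∀ a b : ℂ → ℂ,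
    DifferentiableOn ℂ a (ball 0 R) → DifferentiableOn ℂ b (ball 0 R) →
    (∀ l ∈ ball (0 : ℂ) R, ‖a l‖ ≤ 1) → (∀ l ∈ ball (0 : ℂ) R, ‖b l‖ ≤ 1) →
    (∀ l ∈ ball (0 : ℂ) R, δ ≤ ‖a l‖ ^ 2 + ‖b l‖ ^ 2) →
    ∃ s₁ s₂ : ℂ → ℂ, DifferentiableOn ℂ s₁ (ball 0 R) ∧ DifferentiableOn ℂ s₂ (ball 0 R) ∧
      (∀ l ∈ ball (0 : ℂ) R, ‖s₁ l‖ ≤ C ∧ ‖s₂ l‖ ≤ C) ∧
      ∀ l ∈ ball (0 : ℂ) R, a l * s₁ l + b l * s₂ l = 1 := by
  obtain ⟨C, hC⟩ := Pool.Agent.H720R2.HP.main 1 (fun _ => 1) hδ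
  refine ⟨max C 0, le_max_right _ _, fun R hR a b ha hb ha1 hb1 hab => ?_⟩
  have hRc : (R : ℂ) ≠ 0 := by exact_mod_cast hR.ne'
  have hsc : ∀ x ∈ ball (0 : ℂ) 1, (R : ℂ) * x ∈ ball (0 : ℂ) R := by
    intro x hx
    rw [mem_ball_zero_iff] at hx ⊢
    rw [norm_mul, norm_real, Real.norm_eq_abs, abs_of_pos hR]
    nlinarith
  have hz0 : ∀ z ∈ Pool.Agent.H720R2.Cor.Ball (0 + 1), z 0 ∈ ball (0 : ℂ) 1 := fun z hz =>
    Pool.Agent.H720R2.HP.ball_zero hz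
  obtain ⟨g, g₀, h1, h2, h3, h4, h5⟩ := hC 0 (fun _ => id) (fun _ => ⟨differentiableOn_id,
    fun z hz => hz, id, differentiableOn_id, fun z hz => hz, fun z _ => rfl, fun z _ => rfl⟩)
    (fun _ _ x => a (R * x)) (fun _ _ => ha.comp (differentiableOn_id.const_mul _) hsc)
    (fun _ _ x hx => ha1 _ (hsc x hx)) (fun z => b (R * z 0))
    (hb.comp ((differentiableOn_id.const_mul _).comp (differentiable_apply 0).differentiableOn
      hz0) (fun z hz => hsc _ (hz0 z hz)))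
    (fun z hz => hb1 _ (hsc _ (hz0 z hz))) (fun z hz => by
      have h6 := hab _ (hsc _ (hz0 z hz))
      have h7 := ha1 _ (hsc _ (hz0 z hz))
      have h8 := hb1 _ (hsc _ (hz0 z hz))
      have h9 := norm_nonneg (a (R * z 0))
      have h10 := norm_nonneg (b (R * z 0))
      simp only [Finset.univ_unique, Finset.prod_const, Finset.card_singleton, pow_one,
        Finset.sum_const, id_eq, one_smul]
      nlinarith)
  have hin : ∀ l ∈ ball (0 : ℂ) R, (fun _ : Fin (0 + 1) => l / R) ∈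
      Pool.Agent.H720R2.Cor.Ball (0 + 1) := by
    intro l hl
    rw [mem_ball_zero_iff] at hl
    have h6 : ‖l / R‖ < 1 := by
      rw [norm_div, norm_real, Real.norm_eq_abs, abs_of_pos hR, div_lt_one hR]
      exact hl
    change ∑ i : Fin (0 + 1), ‖l / R‖ ^ 2 < 1
    simp only [Finset.sum_const, Finset.card_univ, Fintype.card_fin, zero_add, one_smul]
    nlinarith [norm_nonneg (l / R)]
  have hd : DifferentiableOn ℂ (fun l : ℂ => (fun _ : Fin (0 + 1) => l / R)) (ball 0 R) :=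
    (differentiable_pi.2 (fun _ => differentiable_id.div_const _)).differentiableOn
  refine ⟨fun l => g default (fun _ => l / R), fun l => g₀ (fun _ => l / R),
    (h1 default).comp hd hin, h2.comp hd hin, fun l hl => ⟨(h3 _ _ (hin l hl)).trans
    (le_max_left _ _), (h4 _ (hin l hl)).trans (le_max_left _ _)⟩, fun l hl => ?_⟩
  have h6 := h5 _ (hin l hl)
  rw [Fintype.sum_unique] at h6
  simp only [Finset.univ_unique, Finset.prod_const, Finset.card_singleton, pow_one, id_eq] at h6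
  rw [mul_div_cancel₀ _ hRc] at h6
  exact h6

/-- the interval -/
noncomputable abbrev J : Measure ℝ := volume.restrict (Ioc 0 (2 * Real.pi))

lemma int_bdd {f : ℝ → ℂ} {B : ℝ} (hf : Measurable f) (hB : ∀ θ, ‖f θ‖ ≤ B) : Integrable f J :=
  Measure.integrableOn_of_bounded (M := B) measure_Ioc_lt_top.ne hf.aestronglyMeasurable
    (Eventually.of_forall hB)

lemma meas_cm {s : ℂ → ℂ} {R : ℝ} (hR : 1 < R) (hs : DifferentiableOn ℂ s (ball 0 R)) :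
    Measurable (fun θ : ℝ => s (circleMap 0 1 θ)) := by
  refine Continuous.measurable ?_
  rw [continuous_iff_continuousAt]
  intro θ
  exact ContinuousAt.comp (f := circleMap 0 1) (g := s)
    ((hs.differentiableAt (isOpen_ball.mem_nhds (cm_mem hR θ))).continuousAt)
    (continuous_circleMap 0 1).continuousAt

/-- the correction integral -/
noncomputable def corr (ψ₁ ψ₂ : ℝ → ℂ) (s₁ s₂ : ℂ → ℂ) : ℂ :=
  ∫ θ, (ψ₂ θ * s₁ (circleMap 0 1 θ) - ψ₁ θ * s₂ (circleMap 0 1 θ)) ∂J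

/-- The corrected solution does not depend on the solution in the disc. -/
lemma indep {R : ℝ} (hR : 1 < R) {a b s₁ s₂ t₁ t₂ : ℂ → ℂ}
    (hs1 : DifferentiableOn ℂ s₁ (ball 0 R)) (hs2 : DifferentiableOn ℂ s₂ (ball 0 R))
    (ht1 : DifferentiableOn ℂ t₁ (ball 0 R)) (ht2 : DifferentiableOn ℂ t₂ (ball 0 R))
    {C : ℝ} (hsb : ∀ l ∈ ball (0 : ℂ) R, ‖s₁ l‖ ≤ C ∧ ‖s₂ l‖ ≤ C)
    (htb : ∀ l ∈ ball (0 : ℂ) R, ‖t₁ l‖ ≤ C ∧ ‖t₂ l‖ ≤ C)
    (hs : ∀ l ∈ ball (0 : ℂ) R, a l * s₁ l + b l * s₂ l = 1)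
    (ht : ∀ l ∈ ball (0 : ℂ) R, a l * t₁ l + b l * t₂ l = 1)
    {ψ₁ ψ₂ φ : ℝ → ℂ} (hψ1 : Measurable ψ₁) (hψ2 : Measurable ψ₂)
    {B : ℝ} (hψb : ∀ θ, ‖ψ₁ θ‖ ≤ B ∧ ‖ψ₂ θ‖ ≤ B)
    (hψ : ∀ᵐ θ ∂J, a (circleMap 0 1 θ) * ψ₁ θ + b (circleMap 0 1 θ) * ψ₂ θ = φ θ)
    {c : ℝ} (hφ : ∀ t : ℂ → ℂ, DifferentiableOn ℂ t (ball 0 R) →
      ∫ θ, φ θ * t (circleMap 0 1 θ) ∂J = 2 * Real.pi * (c * t 0)) :
    c * t₁ 0 - (2 * (Real.pi : ℂ))⁻¹ * corr ψ₁ ψ₂ t₁ t₂ * b 0 =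
      c * s₁ 0 - (2 * (Real.pi : ℂ))⁻¹ * corr ψ₁ ψ₂ s₁ s₂ * b 0 ∧
    c * t₂ 0 + (2 * (Real.pi : ℂ))⁻¹ * corr ψ₁ ψ₂ t₁ t₂ * a 0 =
      c * s₂ 0 + (2 * (Real.pi : ℂ))⁻¹ * corr ψ₁ ψ₂ s₁ s₂ * a 0 := by
  have hB0 : 0 ≤ B := (norm_nonneg _).trans (hψb 0).1
  have hi : ∀ u₁ u₂ : ℂ → ℂ, DifferentiableOn ℂ u₁ (ball 0 R) → DifferentiableOn ℂ u₂ (ball 0 R) →
      (∀ l ∈ ball (0 : ℂ) R, ‖u₁ l‖ ≤ C ∧ ‖u₂ l‖ ≤ C) →
      Integrable (fun θ => ψ₂ θ * u₁ (circleMap 0 1 θ) - ψ₁ θ * u₂ (circleMap 0 1 θ)) J := by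
    intro u₁ u₂ hu1 hu2 hu
    refine int_bdd (B := B * C + B * C) ((hψ2.mul (meas_cm hR hu1)).sub (hψ1.mul (meas_cm hR hu2)))
      (fun θ => (norm_sub_le _ _).trans ?_)
    rw [norm_mul, norm_mul]
    have h1 := hu _ (cm_mem hR θ)
    exact add_le_add (mul_le_mul (hψb θ).2 h1.1 (norm_nonneg _) hB0)
      (mul_le_mul (hψb θ).1 h1.2 (norm_nonneg _) hB0)
  set r : ℂ → ℂ := fun l => s₂ l * t₁ l - s₁ l * t₂ l with hr
  have hrd : DifferentiableOn ℂ r (ball 0 R) := (hs2.fun_mul ht1).fun_sub (hs1.fun_mul ht2)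
  have e1 : ∀ l ∈ ball (0 : ℂ) R, t₁ l - s₁ l = b l * r l := by
    intro l hl
    have h1 := hs l hl
    have h2 := ht l hl
    simp only [hr]
    linear_combination (-t₁ l) * h1 + (s₁ l) * h2
  have e2 : ∀ l ∈ ball (0 : ℂ) R, t₂ l - s₂ l = -(a l * r l) := by
    intro l hl
    have h1 := hs l hl
    have h2 := ht l hl
    simp only [hr]
    linear_combination (-t₂ l) * h1 + (s₂ l) * h2
  have e3 : corr ψ₁ ψ₂ t₁ t₂ - corr ψ₁ ψ₂ s₁ s₂ = 2 * Real.pi * (c * r 0) := by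
    rw [← hφ r hrd]
    unfold corr
    rw [← integral_sub (hi t₁ t₂ ht1 ht2 htb) (hi s₁ s₂ hs1 hs2 hsb)]
    refine integral_congr_ae ?_
    filter_upwards [hψ] with θ hθ
    have h1 := e1 _ (cm_mem hR θ)
    have h2 := e2 _ (cm_mem hR θ)
    rw [← hθ]
    linear_combination (ψ₂ θ) * h1 - (ψ₁ θ) * h2
  have h0 : (0 : ℂ) ∈ ball (0 : ℂ) R := by
    rw [mem_ball_zero_iff, norm_zero]
    linarith
  have hpi : (2 * (Real.pi : ℂ)) ≠ 0 := by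
    have : (Real.pi : ℂ) ≠ 0 := by exact_mod_cast Real.pi_ne_zero
    exact mul_ne_zero two_ne_zero this
  have e4 : (2 * (Real.pi : ℂ))⁻¹ * (corr ψ₁ ψ₂ t₁ t₂ - corr ψ₁ ψ₂ s₁ s₂) = c * r 0 := by
    rw [e3, ← mul_assoc, inv_mul_cancel₀ hpi, one_mul]
  constructor
  · have h1 := e1 0 h0
    linear_combination (c : ℂ) * h1 - b 0 * e4
  · have h1 := e2 0 h0
    linear_combination (c : ℂ) * h1 + a 0 * e4

lemma corr_le {R : ℝ} (hR : 1 < R) {s₁ s₂ : ℂ → ℂ} {C : ℝ}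
    (hsb : ∀ l ∈ ball (0 : ℂ) R, ‖s₁ l‖ ≤ C ∧ ‖s₂ l‖ ≤ C) {ψ₁ ψ₂ : ℝ → ℂ} {B : ℝ}
    (hψb : ∀ θ, ‖ψ₁ θ‖ ≤ B ∧ ‖ψ₂ θ‖ ≤ B) :
    ‖(2 * (Real.pi : ℂ))⁻¹ * corr ψ₁ ψ₂ s₁ s₂‖ ≤ 2 * (B * C) := by
  have hB0 : 0 ≤ B := (norm_nonneg _).trans (hψb 0).1
  have hpi : (0 : ℝ) < 2 * Real.pi := by positivity
  have h1 : ‖corr ψ₁ ψ₂ s₁ s₂‖ ≤ (B * C + B * C) * (2 * Real.pi) := by
    unfold corr
    have h2 := norm_integral_le_of_norm_le_const (μ := J) (C := B * C + B * C)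
      (f := fun θ => ψ₂ θ * s₁ (circleMap 0 1 θ) - ψ₁ θ * s₂ (circleMap 0 1 θ))
      (Eventually.of_forall (fun θ => by
        refine (norm_sub_le _ _).trans ?_
        rw [norm_mul, norm_mul]
        have h1 := hsb _ (cm_mem hR θ)
        exact add_le_add (mul_le_mul (hψb θ).2 h1.1 (norm_nonneg _) hB0)
          (mul_le_mul (hψb θ).1 h1.2 (norm_nonneg _) hB0)))
    refine h2.trans (le_of_eq ?_)
    congr 1
    rw [measureReal_def, Measure.restrict_apply_univ, Real.volume_Ioc, sub_zero,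
      ENNReal.toReal_ofReal hpi.le]
  rw [norm_mul, norm_inv]
  have h3 : ‖(2 * (Real.pi : ℂ))‖ = 2 * Real.pi := by
    rw [norm_mul, norm_real, Real.norm_eq_abs, abs_of_pos Real.pi_pos]
    norm_num
  rw [h3, inv_mul_le_iff₀ hpi]
  linarith

variable {X : Type} [NormedAddCommGroup X] [NormedSpace ℂ X]

/-- bounded holomorphic functions are locally Lipschitz, uniformly in the parameter -/
lemma Hol.lipz {D : Set X} {R : ℝ} {F : X → ℂ → ℂ} (h : Hol D R F) {z0 : X} {r : ℝ} (hr : 0 < r)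
    (hD : ball z0 r ⊆ D) {z : X} (hz : z ∈ ball z0 (r / 2)) {l : ℂ} (hl : l ∈ ball (0 : ℂ) R) :
    ‖F z l - F z0 l‖ ≤ 4 / r * ‖z - z0‖ := by
  have hr2 : 0 < r / 2 := by positivity
  have hsub : ∀ x ∈ ball z0 (r / 2), ball x (r / 2) ⊆ D := by
    intro x hx
    refine Subset.trans (ball_subset_ball' ?_) hD
    rw [mem_ball] at hx
    linarith
  have hsub2 : ball z0 (r / 2) ⊆ D := (ball_subset_ball (by linarith)).trans hD
  refine Convex.norm_image_sub_le_of_norm_fderiv_le (𝕜 := ℂ) (s := ball z0 (r / 2))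
    (f := fun z => F z l) (fun x hx => ?_) (fun x hx => ?_) (convex_ball _ _)
    (mem_ball_self hr2) hz
  · exact (h.1 l hl).differentiableAt (mem_of_superset (isOpen_ball.mem_nhds hx) hsub2)
  · have h1 := Complex.norm_fderiv_le_div_of_mapsTo_ball (f := fun z => F z l) (c := x)
      (R₁ := r / 2) (R₂ := 2) ((h.1 l hl).mono (hsub x hx)) (fun y hy => ?_) hr2
    · refine h1.trans (le_of_eq ?_)
      field_simp
      norm_num
    · rw [mem_closedBall, dist_eq_norm]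
      have h2 := h.2.2 y (hsub x hx hy) l hl
      have h3 := h.2.2 x (hsub2 hx) l hl
      have h4 := norm_sub_le (F y l) (F x l)
      linarith

/-- **The logarithm of the corona constant of two functions is plurisubharmonic up to a constant.** -/
theorem core {δ : ℝ} (hδ : 0 < δ) : ∃ C : ℝ, 0 < C ∧ ∀ (X : Type) [NormedAddCommGroup X]
    [NormedSpace ℂ X] [FiniteDimensional ℂ X] (D : Set X), IsOpen D → ∀ (R : ℝ), 1 < R →
    ∀ F₁ F₂ : X → ℂ → ℂ, Hol D R F₁ → Hol D R F₂ →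
    (∀ z ∈ D, ∀ l ∈ ball (0 : ℂ) R, δ ≤ ‖F₁ z l‖ ^ 2 + ‖F₂ z l‖ ^ 2) →
    ∀ M : ℝ → ℝ, Measurable M → (∀ θ, 1 ≤ M θ) → Integrable (fun θ => Real.log (M θ)) J →
    (∀ᵐ θ ∂J, Solv D (fun z => F₁ z (circleMap 0 1 θ)) (fun z => F₂ z (circleMap 0 1 θ)) (M θ)) →
    Solv D (fun z => F₁ z 0) (fun z => F₂ z 0)
      (C * Real.exp ((2 * Real.pi)⁻¹ * ∫ θ, Real.log (M θ) ∂J)) := by
  obtain ⟨C, hC0, hC⟩ := disc hδ
  refine ⟨7 * Real.exp 1 * (C + 1), by positivity, ?_⟩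
  intro X _ _ _ D hD R hR F₁ F₂ hF1 hF2 hlow M hMm hM1 hMi hsol
  classical
  have hR0 : 0 < R := by linarith
  have h0R : (0 : ℂ) ∈ ball (0 : ℂ) R := by
    rw [mem_ball_zero_iff, norm_zero]
    linarith
  -- solutions in the discs
  have hdisc : ∀ z : X, ∃ s₁ s₂ : ℂ → ℂ, z ∈ D → DifferentiableOn ℂ s₁ (ball 0 R) ∧
      DifferentiableOn ℂ s₂ (ball 0 R) ∧ (∀ l ∈ ball (0 : ℂ) R, ‖s₁ l‖ ≤ C ∧ ‖s₂ l‖ ≤ C) ∧
      ∀ l ∈ ball (0 : ℂ) R, F₁ z l * s₁ l + F₂ z l * s₂ l = 1 := by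
    intro z
    by_cases hz : z ∈ D
    · obtain ⟨s₁, s₂, a1, a2, a3, a4⟩ := hC R hR0 (F₁ z) (F₂ z) (hF1.2.1 z hz) (hF2.2.1 z hz)
        (hF1.2.2 z hz) (hF2.2.2 z hz) (hlow z hz)
      exact ⟨s₁, s₂, fun _ => ⟨a1, a2, a3, a4⟩⟩
    · exact ⟨0, 0, fun h => absurd h hz⟩
  choose s₁ s₂ hs using hdisc
  -- outer function and selection
  obtain ⟨φ, hφm, hφb, c, hc1, hc2, hφt⟩ := outerR (L := fun θ => Real.log (M θ))
    (Real.measurable_log.comp hMm) (fun θ => Real.log_nonneg (hM1 θ)) hMi one_pos le_rfl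
  obtain ⟨h₁, h₂, hh1d, hh2d, hh1m, hh2m, hhb, hhe⟩ := select hR hF1 hF2 hMm hM1 hsol
  have hMpos : ∀ θ, 0 < M θ := fun θ => zero_lt_one.trans_le (hM1 θ)
  -- the outer function bounded everywhere
  set φ' : ℝ → ℂ := fun θ => if ‖φ θ‖ ≤ (M θ)⁻¹ then φ θ else 0 with hφ'
  have hφ'm : Measurable φ' :=
    Measurable.ite (measurableSet_le hφm.norm hMm.inv) hφm measurable_const
  have hφ'b : ∀ θ, ‖φ' θ‖ ≤ (M θ)⁻¹ := by
    intro θ
    simp only [hφ']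
    split_ifs with h
    · exact h
    · rw [norm_zero]
      exact (inv_pos.2 (hMpos θ)).le
  have hφe : ∀ᵐ θ ∂J, φ' θ = φ θ := by
    filter_upwards [hφb] with θ hθ
    simp only [hφ']
    rw [if_pos]
    rw [Real.exp_neg, Real.exp_log (hMpos θ)] at hθ
    exact hθ
  have hφ't : ∀ t : ℂ → ℂ, DifferentiableOn ℂ t (ball 0 R) →
      ∫ θ, φ' θ * t (circleMap 0 1 θ) ∂J = 2 * Real.pi * (c * t 0) := by
    intro t ht
    rw [← hφt R t hR ht]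
    refine integral_congr_ae ?_
    filter_upwards [hφe] with θ hθ
    rw [hθ]
  set ψ₁ : X → ℝ → ℂ := fun z θ => φ' θ * h₁ θ z with hψ1
  set ψ₂ : X → ℝ → ℂ := fun z θ => φ' θ * h₂ θ z with hψ2
  have hψ1m : ∀ z ∈ D, Measurable (ψ₁ z) := fun z hz => hφ'm.mul (hh1m z hz)
  have hψ2m : ∀ z ∈ D, Measurable (ψ₂ z) := fun z hz => hφ'm.mul (hh2m z hz)
  have hψb : ∀ z ∈ D, ∀ θ, ‖ψ₁ z θ‖ ≤ 3 ∧ ‖ψ₂ z θ‖ ≤ 3 := by
    intro z hz θ
    have h3 := hφ'b θ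
    have h4 := hhb θ z hz
    have h5 := hMpos θ
    have key : ∀ w : ℂ, ‖w‖ ≤ 3 * M θ → ‖φ' θ * w‖ ≤ 3 := by
      intro w hw
      rw [norm_mul]
      refine (mul_le_mul h3 hw (norm_nonneg _) (inv_pos.2 h5).le).trans (le_of_eq ?_)
      field_simp
    exact ⟨key _ h4.1, key _ h4.2⟩
  have hψe : ∀ z ∈ D, ∀ᵐ θ ∂J,
      F₁ z (circleMap 0 1 θ) * ψ₁ z θ + F₂ z (circleMap 0 1 θ) * ψ₂ z θ = φ' θ := by
    intro z hz
    filter_upwards [hhe] with θ hθ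
    have h3 := hθ z hz
    simp only [hψ1, hψ2]
    linear_combination (φ' θ) * h3
  -- the solution
  set κ : ℂ := (2 * (Real.pi : ℂ))⁻¹ with hκ
  set G₁ : X → ℂ := fun z => c * s₁ z 0 - κ * corr (ψ₁ z) (ψ₂ z) (s₁ z) (s₂ z) * F₂ z 0 with hG1
  set G₂ : X → ℂ := fun z => c * s₂ z 0 + κ * corr (ψ₁ z) (ψ₂ z) (s₁ z) (s₂ z) * F₁ z 0 with hG2
  have hc0 : 0 < c := (Real.exp_pos _).trans_le hc1
  have hcc : (c : ℂ) ≠ 0 := by exact_mod_cast hc0.ne'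
  have hGeq : ∀ z ∈ D, F₁ z 0 * G₁ z + F₂ z 0 * G₂ z = c := by
    intro z hz
    have h3 := (hs z hz).2.2.2 0 h0R
    simp only [hG1, hG2]
    linear_combination (c : ℂ) * h3
  have hGb : ∀ z ∈ D, ‖G₁ z‖ ≤ 7 * C ∧ ‖G₂ z‖ ≤ 7 * C := by
    intro z hz
    obtain ⟨b1, b2, b3, b4⟩ := hs z hz
    have h3 := corr_le hR b3 (hψb z hz)
    have h4 := b3 0 h0R
    have h5 := hF1.2.2 z hz 0 h0R
    have h6 := hF2.2.2 z hz 0 h0R
    have hcn : ‖(c : ℂ)‖ ≤ 1 := by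
      rw [norm_real, Real.norm_eq_abs, abs_of_pos hc0]
      exact hc2
    have key : ∀ v w : ℂ, ‖v‖ ≤ C → ‖w‖ ≤ 1 →
        ‖(c : ℂ) * v‖ + ‖κ * corr (ψ₁ z) (ψ₂ z) (s₁ z) (s₂ z) * w‖ ≤ 7 * C := by
      intro v w hv hw
      rw [norm_mul, norm_mul (κ * corr (ψ₁ z) (ψ₂ z) (s₁ z) (s₂ z))]
      have h7 : ‖(c : ℂ)‖ * ‖v‖ ≤ 1 * C := mul_le_mul hcn hv (norm_nonneg _) zero_le_one
      have h8 : ‖κ * corr (ψ₁ z) (ψ₂ z) (s₁ z) (s₂ z)‖ * ‖w‖ ≤ (2 * (3 * C)) * 1 :=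
        mul_le_mul h3 hw (norm_nonneg _) (by positivity)
      linarith
    exact ⟨(norm_sub_le _ _).trans (key _ _ h4.1 h6), (norm_add_le _ _).trans (key _ _ h4.2 h5)⟩
  have hGd : DifferentiableOn ℂ G₁ D ∧ DifferentiableOn ℂ G₂ D := by
    have hloc : ∀ z0 ∈ D, ∃ O ∈ 𝓝 z0, DifferentiableOn ℂ G₁ O ∧ DifferentiableOn ℂ G₂ O := by
      intro z0 hz0
      obtain ⟨r, hr, hrD⟩ := Metric.isOpen_iff.1 hD z0 hz0
      set r' : ℝ := r / (24 * (C + 1)) with hr'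
      have hr'0 : 0 < r' := by positivity
      have hr'1 : r' ≤ r / 2 := by
        rw [hr']
        refine div_le_div_of_nonneg_left hr.le two_pos ?_
        linarith
      have hO1 : ball z0 r' ⊆ ball z0 (r / 2) := ball_subset_ball hr'1
      have hOD : ball z0 r' ⊆ D := hO1.trans ((ball_subset_ball (by linarith)).trans hrD)
      obtain ⟨b1, b2, b3, b4⟩ := hs z0 hz0
      have htr : ∀ z ∈ ball z0 r', ∀ l ∈ ball (0 : ℂ) R,
          F₁ z l * s₁ z0 l + F₂ z l * s₂ z0 l ≠ 0 ∧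
          ‖s₁ z0 l / (F₁ z l * s₁ z0 l + F₂ z l * s₂ z0 l)‖ ≤ 3 / 2 * C ∧
          ‖s₂ z0 l / (F₁ z l * s₁ z0 l + F₂ z l * s₂ z0 l)‖ ≤ 3 / 2 * C ∧
          F₁ z l * (s₁ z0 l / (F₁ z l * s₁ z0 l + F₂ z l * s₂ z0 l)) +
            F₂ z l * (s₂ z0 l / (F₁ z l * s₁ z0 l + F₂ z l * s₂ z0 l)) = 1 := by
        intro z hz l hl
        have hzd : 4 / r * ‖z - z0‖ ≤ 1 / (6 * (C + 1)) := by
          rw [mem_ball, dist_eq_norm] at hz
          refine (mul_le_mul_of_nonneg_left hz.le (by positivity)).trans (le_of_eq ?_)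
          rw [hr']
          field_simp
          norm_num
        refine transport (b4 l hl) (b3 l hl).1 (b3 l hl).2
          ((hF1.lipz hr hrD (hO1 hz) hl).trans hzd) ((hF2.lipz hr hrD (hO1 hz) hl).trans hzd) ?_
        rw [div_mul_eq_mul_div, one_mul, ← mul_div_assoc, div_le_iff₀ (by positivity)]
        linarith
      set σ₁ : X → ℂ → ℂ := fun z l => s₁ z0 l / (F₁ z l * s₁ z0 l + F₂ z l * s₂ z0 l) with hσ1
      set σ₂ : X → ℂ → ℂ := fun z l => s₂ z0 l / (F₁ z l * s₁ z0 l + F₂ z l * s₂ z0 l) with hσ2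
      have hσl : ∀ z ∈ ball z0 r', DifferentiableOn ℂ (σ₁ z) (ball 0 R) ∧
          DifferentiableOn ℂ (σ₂ z) (ball 0 R) := by
        intro z hz
        have h3 : DifferentiableOn ℂ (fun l => F₁ z l * s₁ z0 l + F₂ z l * s₂ z0 l) (ball 0 R) :=
          ((hF1.2.1 z (hOD hz)).fun_mul b1).fun_add ((hF2.2.1 z (hOD hz)).fun_mul b2)
        exact ⟨b1.fun_div h3 (fun l hl => (htr z hz l hl).1),
          b2.fun_div h3 (fun l hl => (htr z hz l hl).1)⟩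
      have hσz : ∀ l ∈ ball (0 : ℂ) R, DifferentiableOn ℂ (fun z => σ₁ z l) (ball z0 r') ∧
          DifferentiableOn ℂ (fun z => σ₂ z l) (ball z0 r') := by
        intro l hl
        have h3 : DifferentiableOn ℂ (fun z => (F₁ z l * s₁ z0 l + F₂ z l * s₂ z0 l)⁻¹)
            (ball z0 r') := DifferentiableOn.fun_inv ((((hF1.1 l hl).mono hOD).mul_const _).fun_add
              (((hF2.1 l hl).mono hOD).mul_const _)) (fun z hz => (htr z hz l hl).1)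
        simp only [hσ1, hσ2, div_eq_mul_inv]
        exact ⟨h3.const_mul _, h3.const_mul _⟩
      have hσb : ∀ z ∈ ball z0 r', ∀ l ∈ ball (0 : ℂ) R, ‖σ₁ z l‖ ≤ 3 / 2 * C ∧ ‖σ₂ z l‖ ≤ 3 / 2 * C :=
        fun z hz l hl => ⟨(htr z hz l hl).2.1, (htr z hz l hl).2.2.1⟩
      have hcorr : DifferentiableOn ℂ (fun z => corr (ψ₁ z) (ψ₂ z) (σ₁ z) (σ₂ z)) (ball z0 r') := by
        unfold corr
        refine Pool.Agent.HP.differentiableOn_integral J (fun θ z => ψ₂ z θ * σ₁ z (circleMap 0 1 θ) -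
          ψ₁ z θ * σ₂ z (circleMap 0 1 θ)) (ball z0 r') isOpen_ball (fun z hz => ?_) (fun θ => ?_)
          (fun _ => 3 * (3 / 2 * C) + 3 * (3 / 2 * C)) (integrable_const _) (fun θ z hz => ?_)
        · exact (((hψ2m z (hOD hz)).mul (meas_cm hR (hσl z hz).1)).sub
            ((hψ1m z (hOD hz)).mul (meas_cm hR (hσl z hz).2))).aestronglyMeasurable
        · have h3 := hσz _ (cm_mem hR θ)
          exact ((((hh2d θ).mono hOD).const_mul _).fun_mul h3.1).fun_sub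
            ((((hh1d θ).mono hOD).const_mul _).fun_mul h3.2)
        · have h3 := hσb z hz _ (cm_mem hR θ)
          have h4 := hψb z (hOD hz) θ
          refine (norm_sub_le _ _).trans (add_le_add ?_ ?_)
          · rw [norm_mul]
            exact mul_le_mul h4.2 h3.1 (norm_nonneg _) (by norm_num)
          · rw [norm_mul]
            exact mul_le_mul h4.1 h3.2 (norm_nonneg _) (by norm_num)
      have hind := fun z (hz : z ∈ ball z0 r') =>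
        indep (C := 3 / 2 * C) hR
          (hs z (hOD hz)).1 (hs z (hOD hz)).2.1 (hσl z hz).1 (hσl z hz).2
          (fun l hl => ⟨((hs z (hOD hz)).2.2.1 l hl).1.trans (by linarith),
            ((hs z (hOD hz)).2.2.1 l hl).2.trans (by linarith)⟩) (hσb z hz)
          (hs z (hOD hz)).2.2.2 (fun l hl => (htr z hz l hl).2.2.2)
          (hψ1m z (hOD hz)) (hψ2m z (hOD hz)) (hψb z (hOD hz)) (hψe z (hOD hz)) hφ't
      refine ⟨ball z0 r', ball_mem_nhds _ hr'0, ?_, ?_⟩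
      · have h3 : DifferentiableOn ℂ (fun z => c * σ₁ z 0 -
            κ * corr (ψ₁ z) (ψ₂ z) (σ₁ z) (σ₂ z) * F₂ z 0) (ball z0 r') :=
          ((hσz 0 h0R).1.const_mul _).fun_sub ((hcorr.const_mul _).fun_mul ((hF2.1 0 h0R).mono hOD))
        exact h3.congr (fun z hz => (hind z hz).1.symm)
      · have h3 : DifferentiableOn ℂ (fun z => c * σ₂ z 0 +
            κ * corr (ψ₁ z) (ψ₂ z) (σ₁ z) (σ₂ z) * F₁ z 0) (ball z0 r') :=
          ((hσz 0 h0R).2.const_mul _).fun_add ((hcorr.const_mul _).fun_mul ((hF1.1 0 h0R).mono hOD))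
        exact h3.congr (fun z hz => (hind z hz).2.symm)
    constructor
    · intro z0 hz0
      obtain ⟨O, hO, h3, -⟩ := hloc z0 hz0
      exact (h3.differentiableAt hO).differentiableWithinAt
    · intro z0 hz0
      obtain ⟨O, hO, -, h3⟩ := hloc z0 hz0
      exact (h3.differentiableAt hO).differentiableWithinAt
  -- conclusion
  have hcb : c⁻¹ ≤ Real.exp 1 * Real.exp ((2 * Real.pi)⁻¹ * ∫ θ, Real.log (M θ) ∂J) := by
    rw [← Real.exp_add]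
    refine (inv_anti₀ (Real.exp_pos _) hc1).trans (le_of_eq ?_)
    rw [← Real.exp_neg]
    congr 1
    ring
  have hfin : ∀ w : ℂ, ‖w‖ ≤ 7 * C → ‖w / (c : ℂ)‖ ≤ 7 * Real.exp 1 * (C + 1) *
      Real.exp ((2 * Real.pi)⁻¹ * ∫ θ, Real.log (M θ) ∂J) := by
    intro w hw
    rw [norm_div, norm_real, Real.norm_eq_abs, abs_of_pos hc0, div_eq_mul_inv]
    have h3 : ‖w‖ ≤ 7 * (C + 1) := by linarith
    refine (mul_le_mul h3 hcb (inv_pos.2 hc0).le (by positivity)).trans (le_of_eq ?_)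
    ring
  refine ⟨fun z => G₁ z / c, fun z => G₂ z / c,
    by simpa only [div_eq_mul_inv] using hGd.1.mul_const (c : ℂ)⁻¹,
    by simpa only [div_eq_mul_inv] using hGd.2.mul_const (c : ℂ)⁻¹,
    fun z hz => ⟨hfin _ (hGb z hz).1, hfin _ (hGb z hz).2⟩, fun z hz => ?_⟩
  have h3 := hGeq z hz
  field_simp
  exact h3

end Pool.Agent.Q77.Cp
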