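import Mathlib
import Pool.Agent.Q77.Cp.Main

/-!
Circularly symmetric random perturbations of two corona functions; the set of bad parameters.
-/

set_option autoImplicit false

open MeasureTheory Metric Set Filter Topology Complex

namespace Pool.Agent.Q77.Cp

lemma Solv.mono {X : Type} [NormedAddCommGroup X] [NormedSpace ℂ X] {D : Set X} {f₁ f₂ : X → ℂ}
    {K L : ℝ} (h : Solv D f₁ f₂ K) (hKL : K ≤ L) : Solv D f₁ f₂ L := by
  obtain ⟨h₁, h₂, a1, a2, a3, a4⟩ := h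
  exact ⟨h₁, h₂, a1, a2, fun z hz => ⟨(a3 z hz).1.trans hKL, (a3 z hz).2.trans hKL⟩, a4⟩

lemma Solv.scale {X : Type} [NormedAddCommGroup X] [NormedSpace ℂ X] {D : Set X} {f₁ f₂ : X → ℂ}
    {K : ℝ} (h : Solv D f₁ f₂ K) : Solv D (fun z => f₁ z / 2) (fun z => f₂ z / 2) (2 * K) := by
  obtain ⟨h₁, h₂, a1, a2, a3, a4⟩ := h
  refine ⟨fun z => 2 * h₁ z, fun z => 2 * h₂ z, a1.const_mul _, a2.const_mul _, fun z hz => ?_,
    fun z hz => ?_⟩
  · have h3 := a3 z hz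
    rw [norm_mul, norm_mul]
    norm_num
    exact h3
  · have h3 := a4 z hz
    linear_combination h3

lemma Solv.unscale {X : Type} [NormedAddCommGroup X] [NormedSpace ℂ X] {D : Set X} {f₁ f₂ : X → ℂ}
    {K : ℝ} (hK : 0 ≤ K) (h : Solv D (fun z => f₁ z / 2) (fun z => f₂ z / 2) K) :
    Solv D f₁ f₂ K := by
  obtain ⟨h₁, h₂, a1, a2, a3, a4⟩ := h
  refine ⟨fun z => (1 / 2) * h₁ z, fun z => (1 / 2) * h₂ z, a1.const_mul _, a2.const_mul _,
    fun z hz => ?_, fun z hz => ?_⟩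
  · have h3 := a3 z hz
    rw [norm_mul, norm_mul]
    norm_num
    constructor <;> linarith
  · have h3 := a4 z hz
    linear_combination h3

/-- random perturbations with circular symmetry do not help -/
theorem random {δ : ℝ} (hδ : 0 < δ) (hδ1 : δ ≤ 1) : ∃ C : ℝ, 0 < C ∧ ∀ (X : Type)
    [NormedAddCommGroup X] [NormedSpace ℂ X] [FiniteDimensional ℂ X] (D : Set X), IsOpen D →
    ∀ f₁ f₂ : X → ℂ, DifferentiableOn ℂ f₁ D → DifferentiableOn ℂ f₂ D →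
    (∀ z ∈ D, ‖f₁ z‖ ≤ 1 ∧ ‖f₂ z‖ ≤ 1) → (∀ z ∈ D, δ ≤ ‖f₁ z‖ ^ 2 + ‖f₂ z‖ ^ 2) →
    ∀ (Ω : Type) [MeasurableSpace Ω] (μ : Measure Ω) [IsProbabilityMeasure μ] (T : ℝ → Ω → Ω),
    Measurable (fun p : ℝ × Ω => T p.1 p.2) → (∀ θ, MeasurePreserving (T θ) μ μ) →
    ∀ ξ₁ ξ₂ : Ω → X → ℂ, (∀ ω, DifferentiableOn ℂ (ξ₁ ω) D ∧ DifferentiableOn ℂ (ξ₂ ω) D) →
    (∀ ω, ∀ z ∈ D, ‖ξ₁ ω z‖ ≤ δ / 16 ∧ ‖ξ₂ ω z‖ ≤ δ / 16) →
    (∀ θ ω, ∀ z ∈ D, ξ₁ (T θ ω) z = circleMap 0 1 θ * ξ₁ ω z ∧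
      ξ₂ (T θ ω) z = circleMap 0 1 θ * ξ₂ ω z) →
    ∀ M : Ω → ℝ, Measurable M → (∀ ω, 1 ≤ M ω) → Integrable (fun ω => Real.log (M ω)) μ →
    (∀ᵐ ω ∂μ, Solv D (fun z => f₁ z + ξ₁ ω z) (fun z => f₂ z + ξ₂ ω z) (M ω)) →
    Solv D f₁ f₂ (C * Real.exp (∫ ω, Real.log (M ω) ∂μ)) := by
  obtain ⟨C, hC0, hC⟩ := core (δ := δ / 8) (by positivity)
  refine ⟨2 * C, by positivity, ?_⟩
  intro X _ _ _ D hD f₁ f₂ hf1 hf2 hfb hlow Ω _ μ _ T hTm hT ξ₁ ξ₂ hξd hξb hξ M hMm hM1 hMi hsol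
  classical
  set Λ : ℝ := ∫ ω, Real.log (M ω) ∂μ with hΛ
  have hpi : (0 : ℝ) < 2 * Real.pi := by positivity
  have hJ : J univ = ENNReal.ofReal (2 * Real.pi) := by
    rw [Measure.restrict_apply_univ, Real.volume_Ioc, sub_zero]
  have hJr : J.real univ = 2 * Real.pi := by
    rw [measureReal_def, hJ, ENNReal.toReal_ofReal hpi.le]
  have hJf : IsFiniteMeasure J := ⟨by rw [hJ]; exact ENNReal.ofReal_lt_top⟩
  have hlog0 : ∀ ω, 0 ≤ Real.log (M ω) := fun ω => Real.log_nonneg (hM1 ω)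
  have hLm : Measurable (fun ω => Real.log (M ω)) := Real.measurable_log.comp hMm
  have hswap : Measurable (fun p : Ω × ℝ => T p.2 p.1) := hTm.comp measurable_swap
  have hθi : ∀ θ, Integrable (fun ω => Real.log (M (T θ ω))) μ := fun θ =>
    (hT θ).integrable_comp_of_integrable hMi
  have hθv : ∀ θ, ∫ ω, Real.log (M (T θ ω)) ∂μ = Λ := fun θ => by
    have h1 := (hT θ).map_eq
    have h2 : ∫ ω, Real.log (M ω) ∂(μ.map (T θ)) = ∫ ω, Real.log (M (T θ ω)) ∂μ :=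
      integral_map (hT θ).measurable.aemeasurable hLm.aestronglyMeasurable
    rw [h1] at h2
    exact h2.symm
  have hprod : Integrable (fun p : Ω × ℝ => Real.log (M (T p.2 p.1))) (μ.prod J) := by
    have hLs : Measurable (fun p : Ω × ℝ => Real.log (M (T p.2 p.1))) := hLm.comp hswap
    rw [integrable_prod_iff' hLs.aestronglyMeasurable]
    refine ⟨Eventually.of_forall hθi, ?_⟩
    have h1 : (fun θ => ∫ ω, ‖Real.log (M (T θ ω))‖ ∂μ) = fun _ => Λ := by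
      funext θ
      rw [← hθv θ]
      refine integral_congr_ae (Eventually.of_forall (fun ω => ?_))
      simp only [Real.norm_eq_abs, abs_of_nonneg (hlog0 _)]
    rw [h1]
    exact integrable_const _
  have hint : ∫ ω, (∫ θ, Real.log (M (T θ ω)) ∂J) ∂μ = 2 * Real.pi * Λ := by
    rw [integral_integral_swap hprod]
    simp only [hθv, integral_const, hJr, smul_eq_mul]
  have hae1 : ∀ᵐ ω ∂μ, Integrable (fun θ => Real.log (M (T θ ω))) J := hprod.prod_right_ae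
  have hae2 : ∀ᵐ ω ∂μ, ∀ᵐ θ ∂J, Solv D (fun z => f₁ z + ξ₁ (T θ ω) z)
      (fun z => f₂ z + ξ₂ (T θ ω) z) (M (T θ ω)) := by
    refine Measure.ae_ae_of_ae_prod (p := fun p : Ω × ℝ => Solv D (fun z => f₁ z + ξ₁ (T p.2 p.1) z)
      (fun z => f₂ z + ξ₂ (T p.2 p.1) z) (M (T p.2 p.1))) ?_
    have hq : Measure.QuasiMeasurePreserving (fun p : Ω × ℝ => T p.2 p.1) (μ.prod J) μ := by
      refine ⟨hswap, Measure.AbsolutelyContinuous.mk (fun s hs hs0 => ?_)⟩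
      rw [Measure.map_apply hswap hs, Measure.prod_apply_symm (hswap hs)]
      have h1 : ∀ θ : ℝ, μ ((fun ω => (ω, θ)) ⁻¹' ((fun p : Ω × ℝ => T p.2 p.1) ⁻¹' s)) = 0 := by
        intro θ
        have h2 := (hT θ).measure_preimage hs.nullMeasurableSet
        rw [hs0] at h2
        exact h2
      simp only [h1, lintegral_zero]
    exact hq.ae hsol
  obtain ⟨N, hN0, hN⟩ : ∃ N : Set Ω, μ N = 0 ∧ ∀ ω ∉ N, Integrable (fun θ => Real.log (M (T θ ω))) J ∧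
      ∀ᵐ θ ∂J, Solv D (fun z => f₁ z + ξ₁ (T θ ω) z) (fun z => f₂ z + ξ₂ (T θ ω) z) (M (T θ ω)) := by
    have h1 := hae1.and hae2
    exact ⟨_, h1, fun ω hω => notMem_compl_iff.1 hω⟩
  obtain ⟨ω, hωN, hω⟩ := exists_notMem_null_le_integral hprod.integral_prod_left hN0
  obtain ⟨hω1, hω2⟩ := hN ω hωN
  rw [hint] at hω
  -- the family
  have hHol : ∀ (f : X → ℂ) (ξ : Ω → X → ℂ), DifferentiableOn ℂ f D → DifferentiableOn ℂ (ξ ω) D →
      (∀ z ∈ D, ‖f z‖ ≤ 1) → (∀ z ∈ D, ‖ξ ω z‖ ≤ δ / 16) →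
      Hol D 2 (fun z l => (f z + l * ξ ω z) / 2) := by
    intro f ξ hf hξd hf1 hξb
    refine ⟨fun l _ => ?_, fun z _ => ?_, fun z hz l hl => ?_⟩
    · simp only [div_eq_mul_inv]
      exact (hf.fun_add (hξd.const_mul _)).mul_const _
    · exact (((differentiable_id.mul_const _).const_add _).div_const _).differentiableOn
    · rw [mem_ball_zero_iff] at hl
      have h1 := hf1 z hz
      have h2 := hξb z hz
      have h3 : ‖l * ξ ω z‖ ≤ 2 * (δ / 16) := by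
        rw [norm_mul]
        exact mul_le_mul hl.le h2 (norm_nonneg _) zero_le_two
      rw [norm_div]
      have h4 := norm_add_le (f z) (l * ξ ω z)
      have h5 : ‖(2 : ℂ)‖ = 2 := by norm_num
      rw [h5, div_le_one two_pos]
      linarith
  have hlow2 : ∀ (f : X → ℂ) (ξ : Ω → X → ℂ), (∀ z ∈ D, ‖f z‖ ≤ 1) →
      (∀ z ∈ D, ‖ξ ω z‖ ≤ δ / 16) → ∀ z ∈ D, ∀ l ∈ ball (0 : ℂ) 2,
      (‖f z‖ ^ 2 - δ / 4) / 4 ≤ ‖(f z + l * ξ ω z) / 2‖ ^ 2 := by
    intro f ξ hf1 hξb z hz l hl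
    rw [mem_ball_zero_iff] at hl
    have h1 := hf1 z hz
    have h2 := hξb z hz
    have h3 : ‖l * ξ ω z‖ ≤ 2 * (δ / 16) := by
      rw [norm_mul]
      exact mul_le_mul hl.le h2 (norm_nonneg _) zero_le_two
    have h5 : ‖(2 : ℂ)‖ = 2 := by norm_num
    have h6 := norm_sub_le_norm_add (f z) (l * ξ ω z)
    rw [norm_div, h5, div_pow]
    have h7 : ‖f z‖ ^ 2 - δ / 4 ≤ ‖f z + l * ξ ω z‖ ^ 2 := by
      have h8 := norm_nonneg (f z + l * ξ ω z)
      have h9 := norm_nonneg (f z)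
      rcases le_or_gt (‖f z‖) (2 * (δ / 16)) with h | h
      · have : ‖f z‖ ^ 2 ≤ δ / 4 := by nlinarith
        nlinarith [sq_nonneg (‖f z + l * ξ ω z‖)]
      · have h10 : ‖f z‖ - 2 * (δ / 16) ≤ ‖f z + l * ξ ω z‖ := by linarith
        have h11 : (‖f z‖ - 2 * (δ / 16)) ^ 2 ≤ ‖f z + l * ξ ω z‖ ^ 2 :=
          pow_le_pow_left₀ (by linarith) h10 2
        nlinarith
    linarith
  have hcore := hC X D hD 2 (by norm_num) (fun z l => (f₁ z + l * ξ₁ ω z) / 2)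
    (fun z l => (f₂ z + l * ξ₂ ω z) / 2)
    (hHol f₁ ξ₁ hf1 (hξd ω).1 (fun z hz => (hfb z hz).1) (fun z hz => (hξb ω z hz).1))
    (hHol f₂ ξ₂ hf2 (hξd ω).2 (fun z hz => (hfb z hz).2) (fun z hz => (hξb ω z hz).2))
    (fun z hz l hl => by
      have h1 := hlow2 f₁ ξ₁ (fun z hz => (hfb z hz).1) (fun z hz => (hξb ω z hz).1) z hz l hl
      have h2 := hlow2 f₂ ξ₂ (fun z hz => (hfb z hz).2) (fun z hz => (hξb ω z hz).2) z hz l hl
      have h3 := hlow z hz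
      linarith)
    (fun θ => 2 * M (T θ ω)) ((hMm.comp (hTm.comp (measurable_id.prodMk measurable_const))).const_mul 2)
    (fun θ => by linarith [hM1 (T θ ω)]) (by
      have h1 : (fun θ => Real.log (2 * M (T θ ω))) = fun θ => Real.log 2 + Real.log (M (T θ ω)) := by
        funext θ
        rw [Real.log_mul two_ne_zero (by linarith [hM1 (T θ ω)])]
      rw [h1]
      exact (integrable_const _).add hω1) (by
      filter_upwards [hω2] with θ hθ
      have h1 := hθ.scale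
      obtain ⟨h₁, h₂, a1, a2, a3, a4⟩ := h1
      refine ⟨h₁, h₂, a1, a2, a3, fun z hz => ?_⟩
      have h3 := a4 z hz
      simp only [(hξ θ ω z hz).1, (hξ θ ω z hz).2] at h3
      exact h3)
  have hval : (2 * Real.pi)⁻¹ * ∫ θ, Real.log (2 * M (T θ ω)) ∂J ≤ Real.log 2 + Λ := by
    have h1 : (fun θ => Real.log (2 * M (T θ ω))) = fun θ => Real.log 2 + Real.log (M (T θ ω)) := by
      funext θ
      rw [Real.log_mul two_ne_zero (by linarith [hM1 (T θ ω)])]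
    rw [h1, integral_add (integrable_const _) hω1, integral_const, hJr, smul_eq_mul, mul_add,
      ← mul_assoc, inv_mul_cancel₀ hpi.ne', one_mul]
    have h2 : (2 * Real.pi)⁻¹ * ∫ θ, Real.log (M (T θ ω)) ∂J ≤ (2 * Real.pi)⁻¹ * (2 * Real.pi * Λ) :=
      mul_le_mul_of_nonneg_left hω (inv_pos.2 hpi).le
    rw [← mul_assoc, inv_mul_cancel₀ hpi.ne', one_mul] at h2
    linarith
  have hcore2 : Solv D (fun z => f₁ z / 2) (fun z => f₂ z / 2) (2 * C * Real.exp Λ) := by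
    have h1 : C * Real.exp ((2 * Real.pi)⁻¹ * ∫ θ, Real.log (2 * M (T θ ω)) ∂J) ≤
        2 * C * Real.exp Λ := by
      have h2 := Real.exp_le_exp.2 hval
      rw [Real.exp_add, Real.exp_log two_pos] at h2
      nlinarith
    have h3 := hcore.mono h1
    simpa only [zero_mul, add_zero] using h3
  exact hcore2.unscale (by positivity)

end Pool.Agent.Q77.Cp
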