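import Mathlib
import Pool.Agent.Q77.Cp.Rnd

/-!
The set of parameters of a holomorphic family for which the Bezout equation is not solvable.
-/

set_option autoImplicit false

open MeasureTheory Metric Set Filter Topology Complex

namespace Pool.Agent.Q77.Cp

variable {X : Type} [NormedAddCommGroup X] [NormedSpace ℂ X]

/-- solvability persists at nearby parameters -/
lemma Solv.near {D : Set X} {R : ℝ} (hR : 1 < R) {F₁ F₂ : X → ℂ → ℂ} (h1 : Hol D R F₁)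
    (h2 : Hol D R F₂) {l l' : ℂ} (hl : ‖l‖ ≤ 1) (hl' : ‖l'‖ ≤ 1) {K : ℝ} (hK : 0 < K)
    (h : Solv D (fun z => F₁ z l) (fun z => F₂ z l) K)
    (hd : ‖l' - l‖ ≤ (R - 1) / (12 * K)) :
    Solv D (fun z => F₁ z l') (fun z => F₂ z l') (3 / 2 * K) := by
  obtain ⟨h₁, h₂, a1, a2, a3, a4⟩ := h
  have hR1 : 0 < R - 1 := by linarith
  have hlm : ∀ m : ℂ, ‖m‖ ≤ 1 → m ∈ ball (0 : ℂ) R := fun m hm => by
    rw [mem_ball_zero_iff]
    linarith
  have hlip : ∀ F : X → ℂ → ℂ, Hol D R F → ∀ z ∈ D, ‖F z l' - F z l‖ ≤ 1 / (6 * K) := by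
    intro F hF z hz
    refine (hF.lip hR hz hl' hl).trans ?_
    calc 2 / (R - 1) * ‖l' - l‖ ≤ 2 / (R - 1) * ((R - 1) / (12 * K)) := by gcongr
      _ = 1 / (6 * K) := by
        field_simp
        norm_num
  have key := fun z (hz : z ∈ D) => transport (a4 z hz) (a3 z hz).1 (a3 z hz).2
    (hlip F₁ h1 z hz) (hlip F₂ h2 z hz) (by
      rw [div_mul_eq_mul_div, one_mul, ← mul_div_assoc, div_le_iff₀ (by positivity)]
      linarith)
  have hden : DifferentiableOn ℂ (fun z => (F₁ z l' * h₁ z + F₂ z l' * h₂ z)⁻¹) D :=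
    DifferentiableOn.fun_inv (((h1.1 _ (hlm _ hl')).fun_mul a1).fun_add
      ((h2.1 _ (hlm _ hl')).fun_mul a2)) (fun z hz => (key z hz).1)
  refine ⟨fun z => h₁ z / (F₁ z l' * h₁ z + F₂ z l' * h₂ z),
    fun z => h₂ z / (F₁ z l' * h₁ z + F₂ z l' * h₂ z), ?_, ?_,
    fun z hz => ⟨(key z hz).2.1, (key z hz).2.2.1⟩, fun z hz => (key z hz).2.2.2⟩
  · simp only [div_eq_mul_inv]
    exact a1.fun_mul hden
  · simp only [div_eq_mul_inv]
    exact a2.fun_mul hden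

/-- uniform bounds on the circle -/
lemma unif_circle {D : Set X} {R : ℝ} (hR : 1 < R) {F₁ F₂ : X → ℂ → ℂ} (h1 : Hol D R F₁)
    (h2 : Hol D R F₂)
    (h : ∀ l : ℂ, ‖l‖ = 1 → ∃ K, Solv D (fun z => F₁ z l) (fun z => F₂ z l) K) :
    ∃ K : ℝ, 1 ≤ K ∧ ∀ l : ℂ, ‖l‖ = 1 → Solv D (fun z => F₁ z l) (fun z => F₂ z l) K := by
  have hc : IsCompact (sphere (0 : ℂ) 1) := isCompact_sphere _ _
  obtain ⟨K, hK1, hK⟩ := hc.induction_on (p := fun s => ∃ K : ℝ, 1 ≤ K ∧ ∀ l ∈ s, ‖l‖ = 1 →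
    Solv D (fun z => F₁ z l) (fun z => F₂ z l) K) ⟨1, le_rfl, fun l hl => absurd hl (notMem_empty _)⟩
    (fun s t hst ⟨K, hK1, hK⟩ => ⟨K, hK1, fun l hl => hK l (hst hl)⟩)
    (fun s t ⟨K, hK1, hK⟩ ⟨L, hL1, hL⟩ => ⟨max K L, hK1.trans (le_max_left _ _), fun l hl hl1 => by
      rcases hl with hl | hl
      · exact (hK l hl hl1).mono (le_max_left _ _)
      · exact (hL l hl hl1).mono (le_max_right _ _)⟩)
    (fun l hl => by
      rw [mem_sphere_zero_iff_norm] at hl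
      obtain ⟨K0, hK0⟩ := h l hl
      set K := max K0 1 with hK
      have hKp : 0 < K := one_pos.trans_le (le_max_right _ _)
      have hR1 : 0 < R - 1 := by linarith
      refine ⟨ball l ((R - 1) / (12 * K)) ∩ sphere 0 1, ?_, 3 / 2 * K, ?_, fun l' hl' hl'1 => ?_⟩
      · rw [inter_comm]
        exact inter_mem_nhdsWithin _ (ball_mem_nhds _ (by positivity))
      · have : 1 ≤ K := le_max_right _ _
        linarith
      · refine (hK0.mono (le_max_left _ _)).near hR h1 h2 hl.le hl'1.le hKp ?_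
        have := hl'.1
        rw [mem_ball, dist_eq_norm] at this
        exact this.le)
  exact ⟨K, hK1, fun l hl => hK l (by rwa [mem_sphere_zero_iff_norm]) hl⟩

/-- If all parameters on the unit circle are good, then so is the centre. -/
theorem good_centre {δ : ℝ} (hδ : 0 < δ) {X : Type} [NormedAddCommGroup X] [NormedSpace ℂ X]
    [FiniteDimensional ℂ X] {D : Set X} (hD : IsOpen D) {R : ℝ} (hR : 1 < R) {F₁ F₂ : X → ℂ → ℂ}
    (h1 : Hol D R F₁) (h2 : Hol D R F₂)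
    (hlow : ∀ z ∈ D, ∀ l ∈ ball (0 : ℂ) R, δ ≤ ‖F₁ z l‖ ^ 2 + ‖F₂ z l‖ ^ 2)
    (h : ∀ l : ℂ, ‖l‖ = 1 → ∃ K, Solv D (fun z => F₁ z l) (fun z => F₂ z l) K) :
    ∃ K, Solv D (fun z => F₁ z 0) (fun z => F₂ z 0) K := by
  obtain ⟨K, hK1, hK⟩ := unif_circle hR h1 h2 h
  obtain ⟨C, -, hC⟩ := core hδ
  exact ⟨_, hC X D hD R hR F₁ F₂ h1 h2 hlow (fun _ => K) measurable_const (fun _ => hK1)
    (integrable_const _) (Eventually.of_forall (fun θ => hK _ (cm_norm θ)))⟩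

/-- The set of bad parameters is empty or of positive length at each of its points. -/
theorem bad_length {δ : ℝ} (hδ : 0 < δ) {X : Type} [NormedAddCommGroup X] [NormedSpace ℂ X]
    [FiniteDimensional ℂ X] {D : Set X} (hD : IsOpen D) {R : ℝ} {F₁ F₂ : X → ℂ → ℂ}
    (h1 : Hol D R F₁) (h2 : Hol D R F₂)
    (hlow : ∀ z ∈ D, ∀ l ∈ ball (0 : ℂ) R, δ ≤ ‖F₁ z l‖ ^ 2 + ‖F₂ z l‖ ^ 2)
    {l₀ : ℂ} (hl₀ : ¬ ∃ K, Solv D (fun z => F₁ z l₀) (fun z => F₂ z l₀) K) {r : ℝ}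
    (hr : ball l₀ r ⊆ ball 0 R) :
    ENNReal.ofReal r ≤ μH[1] {l | l ∈ ball l₀ r ∧
      ¬ ∃ K, Solv D (fun z => F₁ z l) (fun z => F₂ z l) K} := by
  set E : Set ℂ := {l | l ∈ ball l₀ r ∧ ¬ ∃ K, Solv D (fun z => F₁ z l) (fun z => F₂ z l) K} with hE
  have hcirc : ∀ ρ ∈ Ioo 0 r, ∃ l ∈ E, dist l l₀ = ρ := by
    intro ρ hρ
    by_contra hcon
    push Not at hcon
    have hρ0 : (0 : ℝ) < ρ := hρ.1
    apply hl₀
    set R' : ℝ := r / ρ with hR'
    have hR'1 : 1 < R' := by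
      rw [hR', one_lt_div hρ0]
      exact hρ.2
    have hmap : ∀ l ∈ ball (0 : ℂ) R', l₀ + ρ * l ∈ ball (0 : ℂ) R := by
      intro l hl
      refine hr ?_
      rw [mem_ball, dist_eq_norm, add_sub_cancel_left, norm_mul, norm_real, Real.norm_eq_abs,
        abs_of_pos hρ0]
      rw [mem_ball_zero_iff, hR', lt_div_iff₀ hρ0] at hl
      linarith
    have hHol : ∀ F : X → ℂ → ℂ, Hol D R F → Hol D R' (fun z l => F z (l₀ + ρ * l)) := by
      intro F hF
      refine ⟨fun l hl => hF.1 _ (hmap l hl), fun z hz => ?_, fun z hz l hl => hF.2.2 z hz _ (hmap l hl)⟩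
      exact (hF.2.1 z hz).comp ((differentiable_id.const_mul _).const_add _).differentiableOn hmap
    obtain ⟨K, hK⟩ := good_centre hδ hD hR'1 (hHol F₁ h1) (hHol F₂ h2)
      (fun z hz l hl => hlow z hz _ (hmap l hl)) (fun l hl => by
        by_contra hbad
        have hd : dist (l₀ + ρ * l) l₀ = ρ := by
          rw [dist_eq_norm, add_sub_cancel_left, norm_mul, norm_real, Real.norm_eq_abs,
            abs_of_pos hρ0, hl, mul_one]
        refine hcon (l₀ + ρ * l) ⟨?_, hbad⟩ hd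
        rw [mem_ball, hd]
        exact hρ.2)
    refine ⟨K, ?_⟩
    simpa only [mul_zero, add_zero] using hK
  have hsub : Ioo 0 r ⊆ (fun l => dist l l₀) '' E := fun ρ hρ => by
    obtain ⟨l, hl, hl2⟩ := hcirc ρ hρ
    exact ⟨l, hl, hl2⟩
  have hlip : LipschitzWith 1 (fun l : ℂ => dist l l₀) := LipschitzWith.dist_left l₀
  have h3 := (hlip.lipschitzOnWith (s := E)).hausdorffMeasure_image_le (d := 1) zero_le_one
  have h4 : ENNReal.ofReal r = μH[1] (Ioo 0 r) := by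
    rw [hausdorffMeasure_real, Real.volume_Ioo, sub_zero]
  rw [h4]
  refine (measure_mono hsub).trans (h3.trans (le_of_eq ?_))
  simp

end Pool.Agent.Q77.Cp
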