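import Mathlib
import Pool.Agent.Q77.Cp.Sel

/-!
Three generators on a spherical shell: the Bezout equation for the coordinate functions has no
holomorphic solutions at all.
-/

set_option autoImplicit false

open MeasureTheory Metric Set Filter Topology Complex

namespace Pool.Agent.Q77.Cp

/-- the spherical shell -/
def shell : Set (EuclideanSpace ℂ (Fin 2)) := {z | 1 / 2 < ‖z‖ ∧ ‖z‖ < 1}

lemma shell_open : IsOpen shell :=
  (isOpen_lt continuous_const continuous_norm).inter (isOpen_lt continuous_norm continuous_const)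

lemma nsq (a b : ℂ) : ‖(!₂[a, b] : EuclideanSpace ℂ (Fin 2))‖ ^ 2 = ‖a‖ ^ 2 + ‖b‖ ^ 2 := by
  rw [EuclideanSpace.norm_sq_eq]
  simp

lemma mem_shell {a b : ℂ} (h1 : 1 / 4 < ‖a‖ ^ 2 + ‖b‖ ^ 2) (h2 : ‖a‖ ^ 2 + ‖b‖ ^ 2 < 1) :
    (!₂[a, b] : EuclideanSpace ℂ (Fin 2)) ∈ shell := by
  have h := nsq a b
  have h0 := norm_nonneg (!₂[a, b] : EuclideanSpace ℂ (Fin 2))
  constructor
  · by_contra hc
    push Not at hc
    nlinarith
  · by_contra hc
    push Not at hc
    nlinarith

lemma fst_diff (b : ℂ) : Differentiable ℂ (fun a : ℂ => (!₂[a, b] : EuclideanSpace ℂ (Fin 2))) := by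
  rw [differentiable_euclidean]
  intro i
  fin_cases i
  · exact differentiable_id
  · exact differentiable_const _

lemma snd_diff (a : ℂ) : Differentiable ℂ (fun b : ℂ => (!₂[a, b] : EuclideanSpace ℂ (Fin 2))) := by
  rw [differentiable_euclidean]
  intro i
  fin_cases i
  · exact differentiable_const _
  · exact differentiable_id

theorem no_solution : ¬ ∃ h₀ h₁ : EuclideanSpace ℂ (Fin 2) → ℂ, DifferentiableOn ℂ h₀ shell ∧
    (∀ z ∈ shell, z 0 * h₀ z + z 1 * h₁ z = 1) := by
  rintro ⟨h₀, h₁, hd, heq⟩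
  set A : ℝ → ℂ := fun θ => circleMap 0 (3 / 4) θ with hA
  set B : ℝ → ℂ := fun φ => circleMap 0 (5 / 8) φ with hB
  have hAn : ∀ θ, ‖A θ‖ = 3 / 4 := fun θ => by
    rw [hA, norm_circleMap_zero, abs_of_pos (by norm_num)]
  have hBn : ∀ θ, ‖B θ‖ = 5 / 8 := fun θ => by
    rw [hB, norm_circleMap_zero, abs_of_pos (by norm_num)]
  have hAB : ∀ θ φ, (!₂[A θ, B φ] : EuclideanSpace ℂ (Fin 2)) ∈ shell := fun θ φ =>
    mem_shell (by rw [hAn, hBn]; norm_num) (by rw [hAn, hBn]; norm_num)
  set G : ℝ × ℝ → ℂ := fun p => A p.1 * h₀ !₂[A p.1, B p.2] with hG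
  have hcont : Continuous G := by
    refine (((continuous_circleMap 0 _).comp continuous_fst)).mul ?_
    refine hd.continuousOn.comp_continuous ?_ (fun p => hAB _ _)
    have h : Continuous (fun p : ℝ × ℝ => ![A p.1, B p.2]) := by
      refine continuous_pi fun i => ?_
      fin_cases i
      · exact (continuous_circleMap 0 _).comp continuous_fst
      · exact (continuous_circleMap 0 _).comp continuous_snd
    exact (PiLp.continuous_toLp 2 _).comp h
  have hpi : (0 : ℝ) < 2 * Real.pi := by positivity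
  have e1 : ∀ θ, ∫ φ in (0 : ℝ)..(2 * Real.pi), G (θ, φ) = ((2 * Real.pi : ℝ) : ℂ) := by
    intro θ
    have hdc : DiffContOnCl ℂ (fun b : ℂ => A θ * h₀ !₂[A θ, b]) (ball 0 |5 / 8|) := by
      refine DifferentiableOn.diffContOnCl ?_
      rw [abs_of_pos (by norm_num), closure_ball _ (by norm_num)]
      refine DifferentiableOn.const_mul ?_ _
      refine hd.comp ((snd_diff (A θ)).differentiableOn) (fun b hb => ?_)
      rw [mem_closedBall_zero_iff] at hb
      have := norm_nonneg b
      exact mem_shell (by rw [hAn]; nlinarith) (by rw [hAn]; nlinarith)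
    have h2 := hdc.circleAverage
    rw [Real.circleAverage, inv_smul_eq_iff₀ hpi.ne'] at h2
    have h3 := heq !₂[A θ, 0] (mem_shell (by rw [hAn]; norm_num) (by rw [hAn]; norm_num))
    simp only [PiLp.toLp_apply, Matrix.cons_val_zero, Matrix.cons_val_one, zero_mul,
      add_zero] at h3
    rw [h3] at h2
    calc ∫ φ in (0 : ℝ)..(2 * Real.pi), G (θ, φ)
        = (2 * Real.pi) • (1 : ℂ) := h2
      _ = ((2 * Real.pi : ℝ) : ℂ) := by simp
  have e2 : ∀ φ, ∫ θ in (0 : ℝ)..(2 * Real.pi), G (θ, φ) = 0 := by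
    intro φ
    have hdc : DiffContOnCl ℂ (fun a : ℂ => a * h₀ !₂[a, B φ]) (ball 0 |3 / 4|) := by
      refine DifferentiableOn.diffContOnCl ?_
      rw [abs_of_pos (by norm_num), closure_ball _ (by norm_num)]
      refine differentiableOn_id.mul ?_
      refine hd.comp ((fst_diff (B φ)).differentiableOn) (fun b hb => ?_)
      rw [mem_closedBall_zero_iff] at hb
      have := norm_nonneg b
      exact mem_shell (by rw [hBn]; nlinarith) (by rw [hBn]; nlinarith)
    have h2 := hdc.circleAverage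
    rw [Real.circleAverage, inv_smul_eq_iff₀ hpi.ne', zero_mul, smul_zero] at h2
    exact h2
  have hint : Integrable G ((volume.restrict (Ioc 0 (2 * Real.pi))).prod
      (volume.restrict (Ioc 0 (2 * Real.pi)))) := by
    rw [Measure.prod_restrict]
    have h : IntegrableOn G (Icc 0 (2 * Real.pi) ×ˢ Icc 0 (2 * Real.pi)) (volume.prod volume) :=
      hcont.continuousOn.integrableOn_compact (isCompact_Icc.prod isCompact_Icc)
    exact h.mono_set (prod_mono Ioc_subset_Icc_self Ioc_subset_Icc_self)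
  have hsw := integral_integral_swap (f := fun θ φ => G (θ, φ)) hint
  have e1' : ∀ θ, ∫ φ in Ioc (0 : ℝ) (2 * Real.pi), G (θ, φ) = ((2 * Real.pi : ℝ) : ℂ) :=
    fun θ => by rw [← intervalIntegral.integral_of_le hpi.le, e1]
  have e2' : ∀ φ, ∫ θ in Ioc (0 : ℝ) (2 * Real.pi), G (θ, φ) = 0 :=
    fun φ => by rw [← intervalIntegral.integral_of_le hpi.le, e2]
  simp only [e1', e2'] at hsw
  rw [integral_zero, ← intervalIntegral.integral_of_le hpi.le] at hsw
  simp at hsw

end Pool.Agent.Q77.Cp
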